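import Pool.Agent.Work.MP_dfcec9_lc.Product

/-!
Assembly: the point sets, their facets and the lower bound.
-/

namespace Pool.Agent.IncHull

theorem sum_choose_lower (j : ℕ) :
    ∃ c : ℝ, 0 < c ∧ ∀ x : ℕ, 64 * (j + 1) ≤ x →
      c * (x : ℝ) ^ (j + 1) ≤
        ((∑ r ∈ Finset.range x, Nat.choose ((r - 4) / 2) j : ℕ) : ℝ) := by
  refine ⟨1 / (2 * 16 ^ j * (Nat.factorial j : ℝ)), by positivity, ?_⟩
  intro x hx
  have hfac : (0 : ℝ) < (Nat.factorial j : ℝ) := by positivity
  have hx0 : (0 : ℝ) ≤ x := Nat.cast_nonneg x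
  have h1 : ∀ r ∈ Finset.Ico (x / 2) x,
      ((x : ℝ) / 16) ^ j / (Nat.factorial j : ℝ) ≤ ((Nat.choose ((r - 4) / 2) j : ℕ) : ℝ) := by
    intro r hr
    have hr' := Finset.mem_Ico.1 hr
    have h2 := Nat.pow_le_choose (α := ℝ) j ((r - 4) / 2)
    refine le_trans ?_ h2
    apply div_le_div_of_nonneg_right _ hfac.le
    apply pow_le_pow_left₀ (by positivity)
    have h3 : x ≤ 16 * ((r - 4) / 2 + 1 - j) := by omega
    have h4 : (x : ℝ) ≤ 16 * (((r - 4) / 2 + 1 - j : ℕ) : ℝ) := by exact_mod_cast h3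
    linarith
  have h5 : ((Finset.Ico (x / 2) x).card : ℝ) * (((x : ℝ) / 16) ^ j / (Nat.factorial j : ℝ)) ≤
      ((∑ r ∈ Finset.range x, Nat.choose ((r - 4) / 2) j : ℕ) : ℝ) := by
    rw [Nat.cast_sum, ← nsmul_eq_mul]
    refine (Finset.card_nsmul_le_sum _ _ _ h1).trans ?_
    apply Finset.sum_le_sum_of_subset_of_nonneg
    · intro r hr
      exact Finset.mem_range.2 (Finset.mem_Ico.1 hr).2
    · intro r _ _
      exact Nat.cast_nonneg _
  refine le_trans ?_ h5
  rw [Nat.card_Ico]
  have h6 : x ≤ 2 * (x - x / 2) := by omega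
  have h7 : (x : ℝ) ≤ 2 * ((x - x / 2 : ℕ) : ℝ) := by exact_mod_cast h6
  have h8 : (0 : ℝ) ≤ ((x : ℝ) / 16) ^ j / (Nat.factorial j : ℝ) := by positivity
  have h9 : 1 / (2 * 16 ^ j * (Nat.factorial j : ℝ)) * (x : ℝ) ^ (j + 1) =
      ((x : ℝ) / 2) * (((x : ℝ) / 16) ^ j / (Nat.factorial j : ℝ)) := by
    rw [div_pow, pow_succ]
    field_simp
  rw [h9]
  exact mul_le_mul_of_nonneg_right (by linarith) h8

/-- `card = n` parameters -/
noncomputable def params (n : ℕ) : Finset ℝ := (Finset.range n).image (fun i : ℕ => (i : ℝ))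

theorem card_params (n : ℕ) : (params n).card = n := by
  rw [params, Finset.card_image_of_injective _ Nat.cast_injective, Finset.card_range]

theorem facetPlane_image_ncard {E E' : Type*} [AddCommGroup E] [Module ℝ E] [AddCommGroup E']
    [Module ℝ E'] (L : E ≃ₗ[ℝ] E') {S : Set E} (hS : S.Finite) :
    {H | FacetPlane (L '' S) H}.ncard ≤ {H | FacetPlane S H}.ncard := by
  have hsub : {H | FacetPlane (L '' S) H} ⊆
      (fun H : Set E => L '' H) '' {H | FacetPlane S H} := by
    intro H hH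
    refine ⟨L.symm '' H, ?_, ?_⟩
    · have h2 := facetPlane_image L.symm hH
      rw [← Set.image_comp] at h2
      have h3 : (L.symm : E' → E) ∘ (L : E → E') = id := by
        funext x; simp
      rw [h3, Set.image_id] at h2
      exact h2
    · change L '' (L.symm '' H) = H
      rw [← Set.image_comp]
      have h3 : (L : E → E') ∘ (L.symm : E' → E) = id := by
        funext x; simp
      rw [h3, Set.image_id]
  exact (Set.ncard_le_ncard hsub ((facetPlane_finite hS).image _)).trans
    (Set.ncard_image_le (facetPlane_finite hS))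

/-- the point sets -/
theorem main_sets {d j e i : ℕ} (hd : d = 2 * j + 2 + e) (hj : 1 ≤ j) (he : 2 * i + 2 ≤ e)
    (x m : ℕ) :
    ∃ V : Finset (Fin d → ℝ), V.card = x * m ∧
      (∀ p ∈ V, p ∉ convexHull ℝ ((V : Set (Fin d → ℝ)) \ {p})) ∧
      (Facets (V : Set (Fin d → ℝ))).Finite ∧
      (Facets (V : Set (Fin d → ℝ))).ncard ≤
        2 * Nat.choose x (j + 1) + 2 * Nat.choose m (e / 2) ∧
      ∀ (N : ℕ) (S : ℕ → Set (Fin d → ℝ)), S 0 = ∅ → S N = (V : Set (Fin d → ℝ)) →
        (∀ t ≤ N, S t ⊆ (V : Set (Fin d → ℝ))) →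
        (∀ t < N, S (t + 1) ⊆ S t ∨ ∃ p, S (t + 1) = insert p (S t)) →
        ∀ m₁ : ℕ, e ≤ m₁ → m₁ ≤ m →
        (m - m₁) * (∑ r ∈ Finset.range x, Nat.choose ((r - 4) / 2) j) * Nat.choose m₁ i ≤
          Nat.choose e i * created N S +
            x * (Nat.choose ((x - 4) / 2) j * Nat.choose m₁ i) := by
  classical
  set X := params x with hX
  have hXc : X.card = x := card_params x
  set W : Set ℝ := ((((X.powerset ×ˢ X).image fun p => (rootPoly p.1).eval p.2) ∪
    ((X.powerset ×ˢ X).image fun p => -(rootPoly p.1).eval p.2) : Finset ℝ) : Set ℝ) with hWdef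
  have hWfin : W.Finite := Finset.finite_toSet _
  have hW : ∀ T ⊆ X, ∀ s ∈ X, (rootPoly T).eval s ∈ W ∧ -(rootPoly T).eval s ∈ W := by
    intro T hT s hs
    have hmemp : (T, s) ∈ X.powerset ×ˢ X :=
      Finset.mem_product.2 ⟨Finset.mem_powerset.2 hT, hs⟩
    constructor
    · rw [hWdef, Finset.mem_coe, Finset.mem_union]
      exact Or.inl (Finset.mem_image.2 ⟨(T, s), hmemp, rfl⟩)
    · rw [hWdef, Finset.mem_coe, Finset.mem_union]
      exact Or.inr (Finset.mem_image.2 ⟨(T, s), hmemp, rfl⟩)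
  obtain ⟨Y, hYc, hYG⟩ := exists_generic e hWfin m
  have hme : Function.Injective (mom e) := mom_injective (by omega)
  have hmd : Function.Injective (mom (2 * j + 2)) := mom_injective (by omega)
  let L : ((Fin (2 * j + 2) → ℝ) × (Fin e → ℝ)) ≃ₗ[ℝ] (Fin d → ℝ) :=
    LinearEquiv.ofFinrankEq _ _ (by
      rw [Module.finrank_prod, Module.finrank_fin_fun, Module.finrank_fin_fun,
        Module.finrank_fin_fun, hd])
  set S₀ : Set ((Fin (2 * j + 2) → ℝ) × (Fin e → ℝ)) :=
    (mom (2 * j + 2) '' (X : Set ℝ)) ×ˢ (mom e '' (Y : Set ℝ)) with hS₀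
  set V : Finset (Fin d → ℝ) :=
    ((X.image (mom (2 * j + 2))) ×ˢ (Y.image (mom e))).image L with hV
  have hVS : (V : Set (Fin d → ℝ)) = L '' S₀ := by
    rw [hV, Finset.coe_image, Finset.coe_product, Finset.coe_image, Finset.coe_image]
  have hSfin : S₀.Finite := (Set.toFinite _).prod (Set.toFinite _)
  have hVc : V.card = x * m := by
    rw [hV, Finset.card_image_of_injective _ L.injective, Finset.card_product,
      Finset.card_image_of_injective _ hmd, Finset.card_image_of_injective _ hme, hXc, hYc]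
  have hFfin : {H | FacetPlane (V : Set (Fin d → ℝ)) H}.Finite :=
    facetPlane_finite (Finset.finite_toSet V)
  have hFsub : Facets (V : Set (Fin d → ℝ)) ⊆
      {H | FacetPlane (V : Set (Fin d → ℝ)) H} := fun H hH => hH.1
  refine ⟨V, hVc, ?_, hFfin.subset hFsub, ?_, ?_⟩
  · -- convex position
    intro p hp hcon
    have hp' : p ∈ (V : Set (Fin d → ℝ)) := hp
    rw [hVS] at hp'
    obtain ⟨⟨a₀, b₀⟩, ⟨⟨s, hs, hsa⟩, ⟨y, hy, hyb⟩⟩, hLp⟩ := hp'
    change mom (2 * j + 2) s = a₀ at hsa
    change mom e y = b₀ at hyb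
    subst hsa hyb
    set α : (Fin (2 * j + 2) → ℝ) →ₗ[ℝ] ℝ := (2 * s) • LinearMap.proj (⟨0, by omega⟩ : Fin (2 * j + 2)) -
      LinearMap.proj (⟨1, by omega⟩ : Fin (2 * j + 2)) with hα
    set β : (Fin e → ℝ) →ₗ[ℝ] ℝ :=
      (2 * y) • LinearMap.proj (⟨0, by omega⟩ : Fin e) - LinearMap.proj (⟨1, by omega⟩ : Fin e)
      with hβ
    have hαv : ∀ t, α (mom (2 * j + 2) t) = 2 * s * t - t ^ 2 := by
      intro t
      simp [hα, mom]
    have hβv : ∀ t, β (mom e t) = 2 * y * t - t ^ 2 := by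
      intro t
      simp [hβ, mom]
    set g : (Fin d → ℝ) →ₗ[ℝ] ℝ := (α.comp (LinearMap.fst ℝ _ _) +
      β.comp (LinearMap.snd ℝ _ _)).comp (L.symm : (Fin d → ℝ) →ₗ[ℝ] _) with hg
    have hgv : ∀ z, g (L z) = α z.1 + β z.2 := by
      intro z
      change α (L.symm (L z)).1 + β (L.symm (L z)).2 = _
      rw [L.symm_apply_apply]
    have hconv : convexHull ℝ ((V : Set (Fin d → ℝ)) \ {p}) ⊆ {q | g q < g p} := by
      apply convexHull_min
      · rintro q ⟨hq, hqp⟩
        rw [hVS] at hq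
        obtain ⟨⟨a₁, b₁⟩, ⟨⟨s₁, hs₁, hsa₁⟩, ⟨y₁, hy₁, hyb₁⟩⟩, rfl⟩ := hq
        change mom (2 * j + 2) s₁ = a₁ at hsa₁
        change mom e y₁ = b₁ at hyb₁
        subst hsa₁ hyb₁
        change g (L (mom (2 * j + 2) s₁, mom e y₁)) < g p
        rw [← hLp, hgv, hgv]
        simp only [hαv, hβv]
        have hne : s₁ ≠ s ∨ y₁ ≠ y := by
          by_contra hcon'
          push Not at hcon'
          apply hqp
          rw [hcon'.1, hcon'.2, hLp]
          rfl
        rcases hne with h | h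
        · have h1 : 0 < (s₁ - s) ^ 2 := by
            have := sub_ne_zero.2 h
            positivity
          nlinarith [sq_nonneg (y₁ - y)]
        · have h1 : 0 < (y₁ - y) ^ 2 := by
            have := sub_ne_zero.2 h
            positivity
          nlinarith [sq_nonneg (s₁ - s)]
      · exact convex_halfSpace_lt g.isLinear _
    have hlt : g p < g p := hconv hcon
    exact lt_irrefl _ hlt
  · calc _ ≤ {H | FacetPlane (V : Set (Fin d → ℝ)) H}.ncard := Set.ncard_le_ncard hFsub hFfin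
      _ ≤ {H | FacetPlane S₀ H}.ncard := by
        rw [hVS]; exact facetPlane_image_ncard L hSfin
      _ ≤ {H | FacetPlane (mom (2 * j + 2) '' (X : Set ℝ)) H}.ncard +
          {H | FacetPlane (mom e '' (Y : Set ℝ)) H}.ncard :=
        facet_prod_ncard (Set.toFinite _) (Set.toFinite _)
      _ ≤ _ := by
        have h1 := (mom_facets (2 * j + 2) X).2
        have h2 := (mom_facets e Y).2
        rw [hXc, show (2 * j + 2) / 2 = j + 1 by omega] at h1
        rw [hYc] at h2
        omega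
  · intro N S h0 hN hsub hstep m₁ hem₁ hm₁
    have hback : ∀ A : Set (Fin d → ℝ), A = L '' (L.symm '' A) := by
      intro A
      rw [← Set.image_comp]
      have h3 : (L : _ → (Fin d → ℝ)) ∘ (L.symm : (Fin d → ℝ) → _) = id := by
        funext x; simp
      rw [h3, Set.image_id]
    have hforth : ∀ A : Set ((Fin (2 * j + 2) → ℝ) × (Fin e → ℝ)), L.symm '' (L '' A) = A := by
      intro A
      rw [← Set.image_comp]
      have h3 : (L.symm : (Fin d → ℝ) → _) ∘ (L : _ → (Fin d → ℝ)) = id := by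
        funext x; simp
      rw [h3, Set.image_id]
    set S' : ℕ → Set ((Fin (2 * j + 2) → ℝ) × (Fin e → ℝ)) := fun t => L.symm '' S t with hS'
    have h1 := created_lower hj he X Y hW hYG hem₁ (by rw [hYc]; exact hm₁) N S'
      (by
        change L.symm '' S 0 = ∅
        rw [h0, Set.image_empty])
      (by
        change L.symm '' S N = _
        rw [hN, hVS, hforth])
      (by
        intro t ht
        change L.symm '' S t ⊆ _
        rw [← hforth ((mom (2 * j + 2) '' (X : Set ℝ)) ×ˢ (mom e '' (Y : Set ℝ)))]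
        apply Set.image_mono
        rw [← hS₀, ← hVS]
        exact hsub t ht)
      (by
        intro t ht
        rcases hstep t ht with h | ⟨p, h⟩
        · exact Or.inl (Set.image_mono h)
        · refine Or.inr ⟨L.symm p, ?_⟩
          change L.symm '' S (t + 1) = insert (L.symm p) (L.symm '' S t)
          rw [h, Set.image_insert_eq])
    rw [hXc, hYc] at h1
    have h2 : created N S = created N S' := by
      rw [← created_image L N S']
      congr 1
      funext t
      exact hback (S t)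
    rw [h2]
    exact h1

end Pool.Agent.IncHull
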