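import Pool.Agent.Work.MP_dfcec9_lc.Defs

/-!
Counting the facets of a cyclic polytope which are visible from a new point on the moment curve.
-/

namespace Pool.Agent.IncHull

open Polynomial

/-- disjoint pairs of consecutive elements -/
theorem exists_pairs : ∀ (n : ℕ) (U : Finset ℝ), U.card = n →
    ∃ P : Finset (Finset ℝ), (∀ p ∈ P, p ⊆ U ∧ p.card = 2) ∧
      (∀ p ∈ P, ∀ q ∈ P, p ≠ q → Disjoint p q) ∧ P.card = U.card / 2 ∧
      ∀ p ∈ P, ∀ t : ℝ, (t ∈ U ∨ (∀ u ∈ U, t ≤ u) ∨ (∀ u ∈ U, u ≤ t)) →
        0 ≤ (rootPoly p).eval t := by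
  classical
  intro n
  induction n using Nat.strong_induction_on with
  | _ n ih =>
  intro U hU
  by_cases hn : n < 2
  · refine ⟨∅, by simp, by simp, ?_, by simp⟩
    rw [Finset.card_empty, hU]
    omega
  push Not at hn
  have hne : U.Nonempty := by rw [← Finset.card_pos]; omega
  set p₁ := U.min' hne with hp₁
  have hp₁U : p₁ ∈ U := U.min'_mem hne
  set U₁ := U.erase p₁ with hU₁
  have hc₁ : U₁.card = U.card - 1 := Finset.card_erase_of_mem hp₁U
  have hne₁ : U₁.Nonempty := by rw [← Finset.card_pos]; omega
  set p₂ := U₁.min' hne₁ with hp₂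
  have hp₂U : p₂ ∈ U₁ := U₁.min'_mem hne₁
  set U₂ := U₁.erase p₂ with hU₂
  have hc₂ : U₂.card = U₁.card - 1 := Finset.card_erase_of_mem hp₂U
  have hlt : p₁ < p₂ := by
    have h1 : p₂ ∈ U := Finset.mem_of_mem_erase hp₂U
    have h2 : p₂ ≠ p₁ := Finset.ne_of_mem_erase hp₂U
    exact lt_of_le_of_ne (U.min'_le p₂ h1) (Ne.symm h2)
  have hmin₁ : ∀ u ∈ U, p₁ ≤ u := fun u hu => U.min'_le u hu
  have hmin₂ : ∀ u ∈ U₁, p₂ ≤ u := fun u hu => U₁.min'_le u hu
  have hsub₂ : U₂ ⊆ U := (Finset.erase_subset _ _).trans (Finset.erase_subset _ _)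
  obtain ⟨P, hP1, hP2, hP3, hP4⟩ := ih U₂.card (by omega) U₂ rfl
  have hdis : ∀ q ∈ P, Disjoint ({p₁, p₂} : Finset ℝ) q := by
    intro q hq
    rw [Finset.disjoint_left]
    intro x hx hxq
    have h1 : x ∈ U₂ := (hP1 q hq).1 hxq
    rw [Finset.mem_insert, Finset.mem_singleton] at hx
    rcases hx with rfl | rfl
    · simp [hU₂, hU₁] at h1
    · simp [hU₂] at h1
  have hnot : ({p₁, p₂} : Finset ℝ) ∉ P := by
    intro h
    have := hdis _ h
    rw [disjoint_self, Finset.bot_eq_empty] at this
    simp at this
  refine ⟨insert {p₁, p₂} P, ?_, ?_, ?_, ?_⟩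
  · intro p hp
    rcases Finset.mem_insert.1 hp with rfl | hp
    · refine ⟨?_, Finset.card_pair hlt.ne⟩
      intro x hx
      rw [Finset.mem_insert, Finset.mem_singleton] at hx
      rcases hx with rfl | rfl
      · exact hp₁U
      · exact Finset.mem_of_mem_erase hp₂U
    · exact ⟨(hP1 p hp).1.trans hsub₂, (hP1 p hp).2⟩
  · intro p hp q hq hpq
    rcases Finset.mem_insert.1 hp with rfl | hp
    · rcases Finset.mem_insert.1 hq with rfl | hq
      · exact absurd rfl hpq
      · exact hdis q hq
    · rcases Finset.mem_insert.1 hq with rfl | hq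
      · exact (hdis p hp).symm
      · exact hP2 p hp q hq hpq
  · rw [Finset.card_insert_of_notMem hnot, hP3]
    omega
  · intro p hp t ht
    rcases Finset.mem_insert.1 hp with rfl | hp
    · rw [rootPoly_eval, Finset.prod_pair hlt.ne]
      rcases ht with ht | ht | ht
      · by_cases h1 : t = p₁
        · rw [h1]; simp
        · have h2 : t ∈ U₁ := Finset.mem_erase.2 ⟨h1, ht⟩
          have h3 := hmin₂ t h2
          exact mul_nonneg (by linarith) (by linarith)
      · have h1 := ht p₁ hp₁U
        have h2 := ht p₂ (Finset.mem_of_mem_erase hp₂U)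
        exact mul_nonneg_of_nonpos_of_nonpos (by linarith) (by linarith)
      · have h1 := ht p₁ hp₁U
        have h2 := ht p₂ (Finset.mem_of_mem_erase hp₂U)
        exact mul_nonneg (by linarith) (by linarith)
    · apply hP4 p hp
      rcases ht with ht | ht | ht
      · by_cases h1 : t = p₁
        · right; left
          intro u hu
          rw [h1]
          exact hmin₁ u (hsub₂ hu)
        · by_cases h2 : t = p₂
          · right; left
            intro u hu
            rw [h2]
            exact hmin₂ u (Finset.mem_of_mem_erase hu)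
          · left
            exact Finset.mem_erase.2 ⟨h2, Finset.mem_erase.2 ⟨h1, ht⟩⟩
      · right; left
        exact fun u hu => ht u (hsub₂ hu)
      · right; right
        exact fun u hu => ht u (hsub₂ hu)

/-- choosing `j` of the pairs -/
theorem exists_family (B : Finset ℝ) (hB : B.card = 2) (P : Finset (Finset ℝ)) (j : ℕ)
    (hP : ∀ p ∈ P, Disjoint B p ∧ p.card = 2) (hd : ∀ p ∈ P, ∀ q ∈ P, p ≠ q → Disjoint p q) :
    ∃ 𝒯 : Finset (Finset ℝ), 𝒯.card = Nat.choose P.card j ∧
      ∀ T ∈ 𝒯, T.card = 2 * j + 2 ∧ T ⊆ B ∪ P.biUnion id ∧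
        ∀ t : ℝ, (∀ p ∈ P, 0 ≤ (rootPoly p).eval t) →
          ∃ c : ℝ, 0 ≤ c ∧ (rootPoly T).eval t = (rootPoly B).eval t * c := by
  classical
  have hdisj : ∀ Q ⊆ P, Disjoint B (Q.biUnion id) := by
    intro Q hQ
    rw [Finset.disjoint_biUnion_right]
    exact fun p hp => (hP p (hQ hp)).1
  refine ⟨(P.powersetCard j).image (fun Q => B ∪ Q.biUnion id), ?_, ?_⟩
  · rw [Finset.card_image_of_injOn, Finset.card_powersetCard]
    have key : ∀ Q ∈ P.powersetCard j, ∀ Q' ∈ P.powersetCard j,
        B ∪ Q.biUnion id = B ∪ Q'.biUnion id → Q ⊆ Q' := by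
      intro Q hQ Q' hQ' h p hp
      have hQP := (Finset.mem_powersetCard.1 hQ).1
      have hQP' := (Finset.mem_powersetCard.1 hQ').1
      have hne : p.Nonempty := by
        rw [← Finset.card_pos, (hP p (hQP hp)).2]; norm_num
      obtain ⟨x, hx⟩ := hne
      have h1 : x ∈ B ∪ Q'.biUnion id := by
        rw [← h, Finset.mem_union, Finset.mem_biUnion]
        exact Or.inr ⟨p, hp, hx⟩
      rw [Finset.mem_union, Finset.mem_biUnion] at h1
      rcases h1 with h1 | ⟨q, hq, hxq⟩
      · exact absurd hx (Finset.disjoint_left.1 (hP p (hQP hp)).1 h1)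
      · by_contra hcon
        have hpq : p ≠ q := fun h => hcon (h ▸ hq)
        exact Finset.disjoint_left.1 (hd p (hQP hp) q (hQP' hq) hpq) hx hxq
    intro Q hQ Q' hQ' h
    exact Finset.Subset.antisymm (key Q hQ Q' hQ' h) (key Q' hQ' Q hQ h.symm)
  · intro T hT
    obtain ⟨Q, hQ, rfl⟩ := Finset.mem_image.1 hT
    have hQP := (Finset.mem_powersetCard.1 hQ).1
    have hQc := (Finset.mem_powersetCard.1 hQ).2
    have hpd : ∀ p ∈ Q, ∀ q ∈ Q, p ≠ q → Disjoint (id p) (id q) := fun p hp q hq hpq =>
      hd p (hQP hp) q (hQP hq) hpq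
    refine ⟨?_, ?_, ?_⟩
    · have hs : ∑ u ∈ Q, (id u : Finset ℝ).card = Q.card * 2 :=
        Finset.sum_const_nat fun p hp => (hP p (hQP hp)).2
      rw [Finset.card_union_of_disjoint (hdisj Q hQP), Finset.card_biUnion hpd, hs, hB, hQc]
      ring
    · exact Finset.union_subset_union_right (Finset.biUnion_subset_biUnion_of_subset_left _ hQP)
    · intro t ht
      refine ⟨∏ p ∈ Q, (rootPoly p).eval t, Finset.prod_nonneg fun p hp => ht p (hQP hp), ?_⟩
      rw [rootPoly_eval, Finset.prod_union (hdisj Q hQP), ← rootPoly_eval,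
        Finset.prod_biUnion (fun p hp q hq hpq => hpd p hp q hq hpq)]
      congr 1
      exact Finset.prod_congr rfl fun p _ => (rootPoly_eval p t).symm

/-- the number of facets of a cyclic polytope which are visible from a new point -/
theorem exists_visible (j : ℕ) (hj : 1 ≤ j) (R : Finset ℝ) (a : ℝ) (ha : a ∉ R) :
    ∃ (𝒯 : Finset (Finset ℝ)) (ε : ℝ), (ε = 1 ∨ ε = -1) ∧ Nat.choose ((R.card - 4) / 2) j ≤ 𝒯.card ∧
      ∀ T ∈ 𝒯, T ⊆ R ∧ T.card = 2 * j + 2 ∧ (∀ t ∈ R, 0 ≤ ε * (rootPoly T).eval t) ∧
        ε * (rootPoly T).eval a < 0 := by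
  classical
  by_cases hsmall : R.card < 4
  · refine ⟨∅, 1, Or.inl rfl, ?_, by simp⟩
    rw [show (R.card - 4) / 2 = 0 by omega, Nat.choose_eq_zero_of_lt (by omega)]
    simp
  push Not at hsmall
  have hne : R.Nonempty := by rw [← Finset.card_pos]; omega
  by_cases hout : (∀ u ∈ R, a < u) ∨ (∀ u ∈ R, u < a)
  · -- outside
    set b := R.min' hne with hb
    set c := R.max' hne with hc
    have hbR : b ∈ R := R.min'_mem hne
    have hcR : c ∈ R := R.max'_mem hne
    have hbc : b < c := by
      rw [hb, hc]
      exact Finset.min'_lt_max'_of_card R (by omega)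
    set U := (R.erase b).erase c with hU
    have hUc : U.card = R.card - 2 := by
      rw [hU, Finset.card_erase_of_mem (Finset.mem_erase.2 ⟨hbc.ne', hcR⟩),
        Finset.card_erase_of_mem hbR]
      omega
    have hUR : U ⊆ R := (Finset.erase_subset _ _).trans (Finset.erase_subset _ _)
    obtain ⟨P, hP1, hP2, hP3, hP4⟩ := exists_pairs U.card U rfl
    have hB : ({b, c} : Finset ℝ).card = 2 := Finset.card_pair hbc.ne
    have hdis : ∀ p ∈ P, Disjoint ({b, c} : Finset ℝ) p ∧ p.card = 2 := by
      intro p hp
      refine ⟨?_, (hP1 p hp).2⟩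
      rw [Finset.disjoint_left]
      intro x hx hxp
      have h1 : x ∈ U := (hP1 p hp).1 hxp
      rw [Finset.mem_insert, Finset.mem_singleton] at hx
      rcases hx with rfl | rfl <;> simp [hU] at h1
    obtain ⟨𝒯, h𝒯c, h𝒯⟩ := exists_family {b, c} hB P j hdis hP2
    refine ⟨𝒯, -1, Or.inr rfl, ?_, ?_⟩
    · rw [h𝒯c]
      exact Nat.choose_le_choose _ (by omega)
    · intro T hT
      obtain ⟨h1, h2, h3⟩ := h𝒯 T hT
      have hTR : T ⊆ R := by
        refine h2.trans (Finset.union_subset ?_ ?_)
        · intro x hx
          rw [Finset.mem_insert, Finset.mem_singleton] at hx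
          rcases hx with rfl | rfl
          · exact hbR
          · exact hcR
        · rw [Finset.biUnion_subset]
          exact fun p hp => (hP1 p hp).1.trans hUR
      refine ⟨hTR, h1, ?_, ?_⟩
      · intro t ht
        obtain ⟨e, he0, he⟩ := h3 t (by
          intro p hp
          apply hP4 p hp
          by_cases hb' : t = b
          · right; left
            intro u hu
            rw [hb']
            exact R.min'_le u (hUR hu)
          · by_cases hc' : t = c
            · right; right
              intro u hu
              rw [hc']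
              exact R.le_max' u (hUR hu)
            · left
              exact Finset.mem_erase.2 ⟨hc', Finset.mem_erase.2 ⟨hb', ht⟩⟩)
        rw [he, rootPoly_eval, Finset.prod_pair hbc.ne]
        have h4 : b ≤ t := R.min'_le t ht
        have h5 : t ≤ c := R.le_max' t ht
        have h6 : (t - b) * (t - c) ≤ 0 :=
          mul_nonpos_of_nonneg_of_nonpos (by linarith) (by linarith)
        nlinarith [mul_nonneg (neg_nonneg.2 h6) he0]
      · have hne0 : (rootPoly T).eval a ≠ 0 := by
          rw [Ne, rootPoly_eval_eq_zero]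
          exact fun h => ha (hTR h)
        obtain ⟨e, he0, he⟩ := h3 a (by
          intro p hp
          apply hP4 p hp
          rcases hout with h | h
          · right; left
            exact fun u hu => (h u (hUR hu)).le
          · right; right
            exact fun u hu => (h u (hUR hu)).le)
        rw [he, rootPoly_eval, Finset.prod_pair hbc.ne] at hne0 ⊢
        have h6 : 0 < (a - b) * (a - c) := by
          rcases hout with h | h
          · exact mul_pos_of_neg_of_neg (by linarith [h b hbR]) (by linarith [h c hcR])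
          · exact mul_pos (by linarith [h b hbR]) (by linarith [h c hcR])
        have h7 : 0 < e := by
          refine lt_of_le_of_ne he0 ?_
          rintro rfl
          simp at hne0
        nlinarith [mul_pos h6 h7]
  · -- between two elements
    push Not at hout
    obtain ⟨⟨u₁, hu₁, hu₁a⟩, ⟨u₂, hu₂, hu₂a⟩⟩ := hout
    have hu₁' : u₁ < a := lt_of_le_of_ne hu₁a (fun h => ha (h ▸ hu₁))
    have hu₂' : a < u₂ := lt_of_le_of_ne hu₂a (fun h => ha (h ▸ hu₂))
    set Lo := R.filter (fun u => u < a) with hLo
    set Hi := R.filter (fun u => a < u) with hHi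
    have hLone : Lo.Nonempty := ⟨u₁, Finset.mem_filter.2 ⟨hu₁, hu₁'⟩⟩
    have hHine : Hi.Nonempty := ⟨u₂, Finset.mem_filter.2 ⟨hu₂, hu₂'⟩⟩
    set b := Lo.max' hLone with hb
    set c := Hi.min' hHine with hc
    have hbLo : b ∈ Lo := Lo.max'_mem hLone
    have hcHi : c ∈ Hi := Hi.min'_mem hHine
    have hbR : b ∈ R := (Finset.mem_filter.1 hbLo).1
    have hcR : c ∈ R := (Finset.mem_filter.1 hcHi).1
    have hba : b < a := (Finset.mem_filter.1 hbLo).2
    have hac : a < c := (Finset.mem_filter.1 hcHi).2
    have hbc : b < c := hba.trans hac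
    set L := Lo.erase b with hL
    set U := Hi.erase c with hU
    have hLc : L.card = Lo.card - 1 := Finset.card_erase_of_mem hbLo
    have hUc : U.card = Hi.card - 1 := Finset.card_erase_of_mem hcHi
    have hLopos : 0 < Lo.card := Finset.card_pos.2 hLone
    have hHipos : 0 < Hi.card := Finset.card_pos.2 hHine
    have hsum : Lo.card + Hi.card = R.card := by
      rw [hLo, hHi, ← Finset.card_union_of_disjoint]
      · congr 1
        ext t
        simp only [Finset.mem_union, Finset.mem_filter]
        constructor
        · rintro (h | h) <;> exact h.1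
        · intro h
          rcases lt_trichotomy t a with h1 | h1 | h1
          · exact Or.inl ⟨h, h1⟩
          · exact absurd (h1 ▸ h) ha
          · exact Or.inr ⟨h, h1⟩
      · rw [Finset.disjoint_filter]
        intro t _ h1 h2
        exact lt_asymm h1 h2
    have hLb : ∀ u ∈ L, u < b := by
      intro u hu
      exact lt_of_le_of_ne (Lo.le_max' u (Finset.mem_of_mem_erase hu)) (Finset.ne_of_mem_erase hu)
    have hUc' : ∀ u ∈ U, c < u := by
      intro u hu
      exact lt_of_le_of_ne (Hi.min'_le u (Finset.mem_of_mem_erase hu))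
        (Finset.ne_of_mem_erase hu).symm
    have hLR : L ⊆ R := (Finset.erase_subset _ _).trans (Finset.filter_subset _ _)
    have hUR : U ⊆ R := (Finset.erase_subset _ _).trans (Finset.filter_subset _ _)
    obtain ⟨P, hP1, hP2, hP3, hP4⟩ := exists_pairs L.card L rfl
    obtain ⟨Q, hQ1, hQ2, hQ3, hQ4⟩ := exists_pairs U.card U rfl
    have hB : ({b, c} : Finset ℝ).card = 2 := Finset.card_pair hbc.ne
    have hPQ : ∀ p ∈ P, ∀ q ∈ Q, Disjoint p q := by
      intro p hp q hq
      rw [Finset.disjoint_left]
      intro x hx hxq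
      have h1 := hLb x ((hP1 p hp).1 hx)
      have h2 := hUc' x ((hQ1 q hq).1 hxq)
      linarith
    have hPQd : Disjoint P Q := by
      rw [Finset.disjoint_left]
      intro p hp hpq
      have h1 := hPQ p hp p hpq
      rw [disjoint_self, Finset.bot_eq_empty] at h1
      have h2 := (hP1 p hp).2
      rw [h1] at h2
      simp at h2
    have hdis : ∀ p ∈ P ∪ Q, Disjoint ({b, c} : Finset ℝ) p ∧ p.card = 2 := by
      intro p hp
      rcases Finset.mem_union.1 hp with hp | hp
      · refine ⟨?_, (hP1 p hp).2⟩
        rw [Finset.disjoint_left]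
        intro x hx hxp
        have h1 := hLb x ((hP1 p hp).1 hxp)
        rw [Finset.mem_insert, Finset.mem_singleton] at hx
        rcases hx with rfl | rfl
        · exact lt_irrefl _ h1
        · exact lt_asymm h1 hbc
      · refine ⟨?_, (hQ1 p hp).2⟩
        rw [Finset.disjoint_left]
        intro x hx hxp
        have h1 := hUc' x ((hQ1 p hp).1 hxp)
        rw [Finset.mem_insert, Finset.mem_singleton] at hx
        rcases hx with rfl | rfl
        · exact lt_asymm h1 hbc
        · exact lt_irrefl _ h1
    have hpd : ∀ p ∈ P ∪ Q, ∀ q ∈ P ∪ Q, p ≠ q → Disjoint p q := by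
      intro p hp q hq hpq
      rcases Finset.mem_union.1 hp with hp | hp
      · rcases Finset.mem_union.1 hq with hq | hq
        · exact hP2 p hp q hq hpq
        · exact hPQ p hp q hq
      · rcases Finset.mem_union.1 hq with hq | hq
        · exact (hPQ q hq p hp).symm
        · exact hQ2 p hp q hq hpq
    obtain ⟨𝒯, h𝒯c, h𝒯⟩ := exists_family {b, c} hB (P ∪ Q) j hdis hpd
    refine ⟨𝒯, 1, Or.inl rfl, ?_, ?_⟩
    · rw [h𝒯c, Finset.card_union_of_disjoint hPQd]
      exact Nat.choose_le_choose _ (by omega)
    · intro T hT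
      obtain ⟨h1, h2, h3⟩ := h𝒯 T hT
      have hTR : T ⊆ R := by
        refine h2.trans (Finset.union_subset ?_ ?_)
        · intro x hx
          rw [Finset.mem_insert, Finset.mem_singleton] at hx
          rcases hx with rfl | rfl
          · exact hbR
          · exact hcR
        · rw [Finset.biUnion_subset]
          intro p hp
          rcases Finset.mem_union.1 hp with hp | hp
          · exact (hP1 p hp).1.trans hLR
          · exact (hQ1 p hp).1.trans hUR
      have hRs : ∀ t ∈ R, t ∈ L ∨ t = b ∨ t = c ∨ t ∈ U := by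
        intro t ht
        rcases lt_trichotomy t a with h | h | h
        · by_cases htb : t = b
          · exact Or.inr (Or.inl htb)
          · exact Or.inl (Finset.mem_erase.2 ⟨htb, Finset.mem_filter.2 ⟨ht, h⟩⟩)
        · exact absurd (h ▸ ht) ha
        · by_cases htc : t = c
          · exact Or.inr (Or.inr (Or.inl htc))
          · exact Or.inr (Or.inr (Or.inr (Finset.mem_erase.2 ⟨htc, Finset.mem_filter.2 ⟨ht, h⟩⟩)))
      refine ⟨hTR, h1, ?_, ?_⟩
      · intro t ht
        obtain ⟨e, he0, he⟩ := h3 t (by
          intro p hp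
          rcases Finset.mem_union.1 hp with hp | hp
          · apply hP4 p hp
            rcases hRs t ht with h | h | h | h
            · exact Or.inl h
            · right; right
              intro u hu
              rw [h]; exact (hLb u hu).le
            · right; right
              intro u hu
              rw [h]; exact ((hLb u hu).trans hbc).le
            · right; right
              intro u hu
              exact ((hLb u hu).trans (hbc.trans (hUc' t h))).le
          · apply hQ4 p hp
            rcases hRs t ht with h | h | h | h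
            · right; left
              intro u hu
              exact ((hLb t h).trans (hbc.trans (hUc' u hu))).le
            · right; left
              intro u hu
              rw [h]; exact (hbc.trans (hUc' u hu)).le
            · right; left
              intro u hu
              rw [h]; exact (hUc' u hu).le
            · exact Or.inl h)
        rw [he, rootPoly_eval, Finset.prod_pair hbc.ne, one_mul]
        apply mul_nonneg _ he0
        rcases hRs t ht with h | h | h | h
        · have := hLb t h
          exact mul_nonneg_of_nonpos_of_nonpos (by linarith) (by linarith)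
        · rw [h]; simp
        · rw [h]; simp
        · have := hUc' t h
          exact mul_nonneg (by linarith) (by linarith)
      · have hne0 : (rootPoly T).eval a ≠ 0 := by
          rw [Ne, rootPoly_eval_eq_zero]
          exact fun h => ha (hTR h)
        obtain ⟨e, he0, he⟩ := h3 a (by
          intro p hp
          rcases Finset.mem_union.1 hp with hp | hp
          · apply hP4 p hp
            right; right
            intro u hu
            exact ((hLb u hu).trans hba).le
          · apply hQ4 p hp
            right; left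
            intro u hu
            exact (hac.trans (hUc' u hu)).le)
        rw [he, rootPoly_eval, Finset.prod_pair hbc.ne] at hne0 ⊢
        have h6 : (a - b) * (a - c) < 0 := mul_neg_of_pos_of_neg (by linarith) (by linarith)
        have h7 : 0 < e := by
          refine lt_of_le_of_ne he0 ?_
          rintro rfl
          simp at hne0
        nlinarith [mul_pos (neg_pos.2 h6) h7]

end Pool.Agent.IncHull
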