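import Mathlib

/-!
MP_dfcec9_lc: facet planes of finite point sets, moment curves, basic dictionary with polynomials.
-/

namespace Pool.Agent.IncHull

open Polynomial

/-- `FacetPlane S H`: the affine hyperplane `H` supports `S` (all points of `S` lie on one closed
side of it) and is affinely spanned by the points of `S` on it.  If `S` is finite and affinely
spans the space, these are exactly the hyperplanes spanned by the facets of the convex hull. -/
def FacetPlane {E : Type*} [AddCommGroup E] [Module ℝ E] (S : Set E) (H : Set E) : Prop :=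
  ∃ (g : E →ₗ[ℝ] ℝ) (t : ℝ), g ≠ 0 ∧ H = {z | g z = t} ∧ (∀ z ∈ S, g z ≤ t) ∧
    H ⊆ (affineSpan ℝ (S ∩ H) : Set E)

/-- the moment curve -/
def mom (D : ℕ) (s : ℝ) : Fin D → ℝ := fun j => s ^ ((j : ℕ) + 1)

/-- the polynomial `t ↦ f (mom t)` -/
noncomputable def polyOf {D : ℕ} (f : (Fin D → ℝ) →ₗ[ℝ] ℝ) : ℝ[X] :=
  ∑ j : Fin D, C (f (Pi.single j 1)) * X ^ ((j : ℕ) + 1)

/-- the functional whose values on the curve are those of `q`, up to the constant term -/
noncomputable def funOf (D : ℕ) (q : ℝ[X]) : (Fin D → ℝ) →ₗ[ℝ] ℝ :=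
  ∑ j : Fin D, q.coeff ((j : ℕ) + 1) • LinearMap.proj j

theorem eval_polyOf {D : ℕ} (f : (Fin D → ℝ) →ₗ[ℝ] ℝ) (t : ℝ) :
    (polyOf f).eval t = f (mom D t) := by
  have h : mom D t = ∑ j : Fin D, (t ^ ((j : ℕ) + 1)) • (Pi.single j (1 : ℝ) : Fin D → ℝ) := by
    funext i
    simp [mom, Finset.sum_apply, Pi.single_apply]
  rw [h, map_sum, polyOf, eval_finsetSum]
  refine Finset.sum_congr rfl fun j _ => ?_
  rw [map_smul, smul_eq_mul, eval_mul, eval_C, eval_pow, eval_X, mul_comm]

theorem coeff_polyOf {D : ℕ} (f : (Fin D → ℝ) →ₗ[ℝ] ℝ) (j : Fin D) :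
    (polyOf f).coeff ((j : ℕ) + 1) = f (Pi.single j 1) := by
  rw [polyOf, finsetSum_coeff, Finset.sum_eq_single j]
  · simp
  · intro i _ hi
    rw [coeff_C_mul, coeff_X_pow, if_neg, mul_zero]
    intro h
    exact hi (Fin.ext (by omega))
  · simp

theorem natDegree_polyOf {D : ℕ} (f : (Fin D → ℝ) →ₗ[ℝ] ℝ) : (polyOf f).natDegree ≤ D := by
  refine natDegree_sum_le_of_forall_le _ _ fun j _ => ?_
  refine (natDegree_C_mul_X_pow_le _ _).trans ?_
  have := j.2
  omega

theorem polyOf_eq_C {D : ℕ} {f : (Fin D → ℝ) →ₗ[ℝ] ℝ} {c : ℝ} (h : polyOf f = C c) : f = 0 := by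
  refine LinearMap.pi_ext' fun j => ?_
  ext
  have := coeff_polyOf f j
  rw [h, coeff_C, if_neg (by omega)] at this
  simpa using this.symm

theorem funOf_mom {D : ℕ} {q : ℝ[X]} (hq : q.natDegree ≤ D) (t : ℝ) :
    funOf D q (mom D t) = q.eval t - q.coeff 0 := by
  have h1 : q.eval t = ∑ i ∈ Finset.range (D + 1), q.coeff i * t ^ i :=
    eval_eq_sum_range' (by omega) t
  rw [h1, Finset.sum_range_succ', funOf]
  simp [mom, LinearMap.sum_apply, Finset.sum_range]

theorem funOf_single {D : ℕ} (q : ℝ[X]) (j : Fin D) :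
    funOf D q (Pi.single j 1) = q.coeff ((j : ℕ) + 1) := by
  rw [funOf, LinearMap.sum_apply, Finset.sum_eq_single j]
  · simp
  · intro i _ hi
    simp [hi]
  · simp

theorem mom_injective {D : ℕ} (hD : 0 < D) : Function.Injective (mom D) := by
  intro s t h
  have := congrFun h ⟨0, hD⟩
  simpa [mom] using this

/-- a functional which is constant on the points of the curve with parameters in `T`, with
`card T > D`, vanishes -/
theorem eq_zero_of_const {D : ℕ} {f : (Fin D → ℝ) →ₗ[ℝ] ℝ} {T : Finset ℝ} (hT : D < T.card)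
    {c : ℝ} (h : ∀ s ∈ T, f (mom D s) = c) : f = 0 := by
  refine polyOf_eq_C (c := c) ?_
  have h0 : polyOf f - C c = 0 := by
    refine eq_zero_of_natDegree_lt_card_of_eval_eq_zero' _ T ?_ ?_
    · intro s hs
      rw [eval_sub, eval_polyOf, eval_C, h s hs, sub_self]
    · refine lt_of_le_of_lt ?_ hT
      exact (natDegree_sub_C).le.trans (natDegree_polyOf f)
  exact sub_eq_zero.1 h0

/-- the monic polynomial with root set `T` -/
noncomputable def rootPoly (T : Finset ℝ) : ℝ[X] := ∏ τ ∈ T, (X - C τ)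

theorem rootPoly_monic (T : Finset ℝ) : (rootPoly T).Monic :=
  monic_prod_of_monic _ _ fun τ _ => monic_X_sub_C τ

theorem rootPoly_natDegree (T : Finset ℝ) : (rootPoly T).natDegree = T.card := by
  rw [rootPoly, natDegree_prod_of_monic _ _ fun τ _ => monic_X_sub_C τ]
  simp

theorem rootPoly_eval (T : Finset ℝ) (t : ℝ) : (rootPoly T).eval t = ∏ τ ∈ T, (t - τ) := by
  rw [rootPoly, eval_prod]
  simp

theorem rootPoly_eval_eq_zero (T : Finset ℝ) (t : ℝ) : (rootPoly T).eval t = 0 ↔ t ∈ T := by
  rw [rootPoly_eval, Finset.prod_eq_zero_iff]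
  constructor
  · rintro ⟨a, ha, h⟩
    rwa [sub_eq_zero.1 h]
  · intro h
    exact ⟨t, h, sub_self t⟩

/-- the functional with `φ (mom t) - h = - ε * rootPoly T (t)` -/
theorem exists_fun_rootPoly {D : ℕ} (hD : 0 < D) {T : Finset ℝ} (hT : T.card = D) {ε : ℝ}
    (hε : ε ≠ 0) :
    ∃ (φ : (Fin D → ℝ) →ₗ[ℝ] ℝ) (h : ℝ), φ ≠ 0 ∧
      (∀ t, φ (mom D t) = h - ε * (rootPoly T).eval t) ∧
      {z | φ z = h} ⊆ (affineSpan ℝ (mom D '' (T : Set ℝ)) : Set (Fin D → ℝ)) := by
  classical
  set q : ℝ[X] := C (-ε) * rootPoly T with hq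
  have hqd : q.natDegree ≤ D := by
    refine (natDegree_C_mul_le _ _).trans ?_
    rw [rootPoly_natDegree, hT]
  have hφ : ∀ t, funOf D q (mom D t) = -q.coeff 0 - ε * (rootPoly T).eval t := by
    intro t
    rw [funOf_mom hqd, hq, eval_mul, eval_C]
    ring
  have hs : ∀ j : Fin D, funOf D q (Pi.single j 1) = -ε * (rootPoly T).coeff ((j : ℕ) + 1) := by
    intro j
    rw [funOf_single, hq, coeff_C_mul]
  refine ⟨funOf D q, -q.coeff 0, ?_, hφ, ?_⟩
  · intro h0
    have h1 := hs ⟨D - 1, by omega⟩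
    have h2 : (rootPoly T).coeff (D - 1 + 1) = 1 := by
      have := (rootPoly_monic T).coeff_natDegree
      rwa [rootPoly_natDegree, hT, show D = D - 1 + 1 by omega] at this
    rw [h0] at h1
    simp only [LinearMap.zero_apply] at h1
    rw [h2, mul_one] at h1
    exact hε (by linarith)
  · intro z hz
    obtain ⟨τ₀, hτ₀⟩ : T.Nonempty := by
      rw [← Finset.card_pos, hT]; exact hD
    set A := affineSpan ℝ (mom D '' (T : Set ℝ)) with hA
    have hmem : ∀ τ ∈ T, mom D τ ∈ A := fun τ hτ =>
      subset_affineSpan ℝ _ (Set.mem_image_of_mem _ hτ)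
    by_contra hzA
    have hdir : z - mom D τ₀ ∉ A.direction := by
      intro h
      apply hzA
      have := AffineSubspace.vadd_mem_of_mem_direction h (hmem τ₀ hτ₀)
      simpa using this
    obtain ⟨f, hf1, hf2⟩ := Submodule.exists_le_ker_of_notMem hdir
    have hc : ∀ τ ∈ T, f (mom D τ) = f (mom D τ₀) := by
      intro τ hτ
      have h1 : mom D τ - mom D τ₀ ∈ A.direction :=
        AffineSubspace.vsub_mem_direction (hmem τ hτ) (hmem τ₀ hτ₀)
      have h2 := hf2 h1
      rw [LinearMap.mem_ker, map_sub, sub_eq_zero] at h2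
      exact h2
    set a : ℝ := (polyOf f).coeff D with ha
    have hr : polyOf f - C (f (mom D τ₀)) - C a * rootPoly T = 0 := by
      have hcoef : (polyOf f - C (f (mom D τ₀)) - C a * rootPoly T).coeff D = 0 := by
        have h2 : (rootPoly T).coeff D = 1 := by
          have := (rootPoly_monic T).coeff_natDegree
          rwa [rootPoly_natDegree, hT] at this
        rw [coeff_sub, coeff_sub, coeff_C_mul, h2, coeff_C, if_neg (by omega)]
        simp [ha]
      have hdeg : (polyOf f - C (f (mom D τ₀)) - C a * rootPoly T).natDegree ≤ D := by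
        refine (natDegree_sub_le _ _).trans (max_le ?_ ?_)
        · exact (natDegree_sub_C).le.trans (natDegree_polyOf f)
        · refine (natDegree_C_mul_le _ _).trans ?_
          rw [rootPoly_natDegree, hT]
      have hlt : (polyOf f - C (f (mom D τ₀)) - C a * rootPoly T).natDegree < T.card := by
        rw [hT]
        by_contra hge
        have hEq : (polyOf f - C (f (mom D τ₀)) - C a * rootPoly T).natDegree = D := by omega
        have : (polyOf f - C (f (mom D τ₀)) - C a * rootPoly T) = 0 := by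
          rw [← leadingCoeff_eq_zero, leadingCoeff, hEq]
          exact hcoef
        rw [this] at hEq
        simp at hEq
        omega
      refine eq_zero_of_natDegree_lt_card_of_eval_eq_zero' _ T ?_ hlt
      intro s hsT
      rw [eval_sub, eval_sub, eval_polyOf, eval_C, hc s hsT, eval_mul,
        (rootPoly_eval_eq_zero T s).2 hsT]
      simp
    have hfφ : f = (-(a / ε)) • funOf D q := by
      refine LinearMap.pi_ext' fun j => ?_
      ext
      have h1 := coeff_polyOf f j
      have h2 : polyOf f = C (f (mom D τ₀)) + C a * rootPoly T := by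
        linear_combination hr
      rw [h2, coeff_add, coeff_C, if_neg (by omega), coeff_C_mul, zero_add] at h1
      simp only [LinearMap.comp_apply, LinearMap.coe_single, LinearMap.smul_apply, smul_eq_mul]
      rw [← h1, hs j]
      field_simp
    apply hf1
    have hz' : funOf D q z = -q.coeff 0 := hz
    rw [hfφ, LinearMap.smul_apply, map_sub, hz', hφ τ₀, (rootPoly_eval_eq_zero T τ₀).2 hτ₀]
    simp

end Pool.Agent.IncHull
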