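import Mathlib

/-!
Parameters in general position with respect to a finite set of values.
-/

namespace Pool.Agent.IncHull

open Polynomial

/-- no polynomial of degree at most `e`, except constants, takes values in `W` at more than
`e + 1` points of `Y` -/
def Generic (e : ℕ) (W : Set ℝ) (Y : Finset ℝ) : Prop :=
  ∀ p : ℝ[X], p.natDegree ≤ e → (∀ c, p ≠ C c) → ∀ Z ⊆ Y, (∀ z ∈ Z, p.eval z ∈ W) →
    Z.card ≤ e + 1

theorem exists_generic (e : ℕ) {W : Set ℝ} (hW : W.Finite) :
    ∀ m : ℕ, ∃ Y : Finset ℝ, Y.card = m ∧ Generic e W Y := by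
  classical
  intro m
  induction m with
  | zero =>
    refine ⟨∅, rfl, ?_⟩
    intro p _ _ Z hZ _
    rw [Finset.subset_empty.1 hZ]
    simp
  | succ m ih =>
    obtain ⟨Y, hYc, hY⟩ := ih
    have hPfin : ∀ Z : Finset ℝ, e < Z.card →
        {p : ℝ[X] | p.natDegree ≤ e ∧ ∀ z ∈ Z, p.eval z ∈ W}.Finite := by
      intro Z hZ
      have hinj : Set.InjOn (fun p : ℝ[X] => fun z : Z => p.eval (z : ℝ))
          {p : ℝ[X] | p.natDegree ≤ e ∧ ∀ z ∈ Z, p.eval z ∈ W} := by
        intro p hp q hq h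
        have h1 : p - q = 0 := by
          refine eq_zero_of_natDegree_lt_card_of_eval_eq_zero' _ Z ?_ ?_
          · intro z hz
            have := congrFun h ⟨z, hz⟩
            change p.eval z = q.eval z at this
            rw [eval_sub, this, sub_self]
          · exact lt_of_le_of_lt ((natDegree_sub_le _ _).trans (max_le hp.1 hq.1)) hZ
        exact sub_eq_zero.1 h1
      refine Set.Finite.of_finite_image ?_ hinj
      have hpi : (Set.univ.pi fun _ : Z => W).Finite := Set.Finite.pi fun _ => hW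
      refine hpi.subset ?_
      rintro _ ⟨p, hp, rfl⟩
      intro z _
      exact hp.2 z z.2
    have hPfin' : {p : ℝ[X] | p.natDegree ≤ e ∧ (∀ c, p ≠ C c) ∧
        ∃ Z ⊆ Y, Z.card = e + 1 ∧ ∀ z ∈ Z, p.eval z ∈ W}.Finite := by
      have h1 : (⋃ Z ∈ (Y.powersetCard (e + 1) : Set (Finset ℝ)),
          {p : ℝ[X] | p.natDegree ≤ e ∧ ∀ z ∈ Z, p.eval z ∈ W}).Finite := by
        refine Set.Finite.biUnion (Finset.finite_toSet _) ?_
        intro Z hZ
        apply hPfin Z
        rw [(Finset.mem_powersetCard.1 (Finset.mem_coe.1 hZ)).2]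
        omega
      refine h1.subset ?_
      rintro p ⟨hp1, _, Z, hZ, hZc, hZW⟩
      simp only [Set.mem_iUnion]
      exact ⟨Z, Finset.mem_coe.2 (Finset.mem_powersetCard.2 ⟨hZ, hZc⟩), hp1, hZW⟩
    have hbad : ∀ p : ℝ[X], (∀ c, p ≠ C c) → {y : ℝ | p.eval y ∈ W}.Finite := by
      intro p hp
      have h1 : (⋃ w ∈ W, {y : ℝ | (p - C w).eval y = 0}).Finite := by
        refine Set.Finite.biUnion hW ?_
        intro w _
        have hne : p - C w ≠ 0 := fun h => hp w (sub_eq_zero.1 h)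
        refine ((p - C w).roots.toFinset.finite_toSet).subset ?_
        intro y hy
        rw [Finset.mem_coe, Multiset.mem_toFinset, mem_roots hne]
        exact hy
      refine h1.subset ?_
      intro y hy
      simp only [Set.mem_iUnion]
      refine ⟨p.eval y, hy, ?_⟩
      change (p - C (p.eval y)).eval y = 0
      rw [eval_sub, eval_C, sub_self]
    have hBad : ((⋃ p ∈ {p : ℝ[X] | p.natDegree ≤ e ∧ (∀ c, p ≠ C c) ∧
        ∃ Z ⊆ Y, Z.card = e + 1 ∧ ∀ z ∈ Z, p.eval z ∈ W}, {y : ℝ | p.eval y ∈ W}) ∪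
        (Y : Set ℝ)).Finite := by
      refine Set.Finite.union (Set.Finite.biUnion hPfin' ?_) (Finset.finite_toSet Y)
      intro p hp
      exact hbad p hp.2.1
    obtain ⟨y, hy⟩ := hBad.exists_notMem
    rw [Set.mem_union, not_or] at hy
    obtain ⟨hy1, hy2⟩ := hy
    have hyY : y ∉ Y := fun h => hy2 (Finset.mem_coe.2 h)
    refine ⟨insert y Y, by rw [Finset.card_insert_of_notMem hyY, hYc], ?_⟩
    intro p hpd hpc Z hZ hZW
    by_cases hyZ : y ∈ Z
    · by_contra hcon
      push Not at hcon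
      have h1 : e + 1 ≤ (Z.erase y).card := by
        rw [Finset.card_erase_of_mem hyZ]; omega
      obtain ⟨Z₂, hZ₂, hZ₂c⟩ := Finset.exists_subset_card_eq h1
      have hZ₂Z : Z₂ ⊆ Z := hZ₂.trans (Finset.erase_subset _ _)
      apply hy1
      simp only [Set.mem_iUnion]
      refine ⟨p, ⟨hpd, hpc, Z₂, ?_, hZ₂c, fun z hz => hZW z (hZ₂Z hz)⟩, hZW y hyZ⟩
      intro z hz
      have h2 := hZ₂ hz
      rw [Finset.mem_erase] at h2
      exact (Finset.mem_insert.1 (hZ h2.2)).resolve_left h2.1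
    · apply hY p hpd hpc Z _ hZW
      intro z hz
      refine (Finset.mem_insert.1 (hZ hz)).resolve_left ?_
      rintro rfl
      exact hyZ hz

end Pool.Agent.IncHull
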