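import Pool.Agent.Work.MP_dfcec9_lc.Lift
import Pool.Agent.Work.MP_dfcec9_lc.Count
import Pool.Agent.Work.MP_dfcec9_lc.Generic

/-!
Facet planes destroyed by an insertion.
-/

namespace Pool.Agent.IncHull

open Polynomial

/-- `FacetOf S H`: `S` affinely spans the space (it is not contained in `H`, and the points of `S`
on `H` span `H`) and `H` is the affine hull of a facet of `conv S` -/
def FacetOf {E : Type*} [AddCommGroup E] [Module ℝ E] (S : Set E) (H : Set E) : Prop :=
  FacetPlane S H ∧ ∃ z ∈ S, z ∉ H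

/-- facet planes of `conv S` which the point `v` is strictly beyond -/
def Dest {E : Type*} [AddCommGroup E] [Module ℝ E] (S : Set E) (v : E) : Set (Set E) :=
  {H | ∃ (g : E →ₗ[ℝ] ℝ) (t : ℝ), g ≠ 0 ∧ H = {z | g z = t} ∧ (∀ z ∈ S, g z ≤ t) ∧
    H ⊆ (affineSpan ℝ (S ∩ H) : Set E) ∧ (∃ z ∈ S, g z < t) ∧ t < g v}

theorem mem_hyperplane_of_span {E : Type*} [AddCommGroup E] [Module ℝ E] {S : Set E} {H : Set E}
    {g : E →ₗ[ℝ] ℝ} {t : ℝ} (hH : H = {z | g z = t}) :
    (affineSpan ℝ (S ∩ H) : Set E) ⊆ H := by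
  rcases H.eq_empty_or_nonempty with h0 | ⟨z₀, hz₀⟩
  · rw [h0, Set.inter_empty]
    simp
  · let A : AffineSubspace ℝ E := AffineSubspace.mk' z₀ (LinearMap.ker g)
    have hz₁ : g z₀ = t := by rw [hH] at hz₀; exact hz₀
    have hA : affineSpan ℝ (S ∩ H) ≤ A := by
      rw [affineSpan_le]
      rintro s ⟨_, hs⟩
      have h1 : g s = t := by rw [hH] at hs; exact hs
      rw [SetLike.mem_coe, AffineSubspace.mem_mk', LinearMap.mem_ker, vsub_eq_sub, map_sub, h1,
        hz₁, sub_self]
    intro p hp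
    have h2 := hA hp
    rw [AffineSubspace.mem_mk', LinearMap.mem_ker, vsub_eq_sub, map_sub] at h2
    rw [hH]
    change g p = t
    linarith

/-- finitely many facet planes -/
theorem facetPlane_finite {E : Type*} [AddCommGroup E] [Module ℝ E] {S : Set E} (hS : S.Finite) :
    {H | FacetPlane S H}.Finite := by
  have hinj : Set.InjOn (fun H : Set E => S ∩ H) {H | FacetPlane S H} := by
    have key : ∀ H, FacetPlane S H → H = (affineSpan ℝ (S ∩ H) : Set E) := by
      rintro H ⟨g, t, _, hH, _, hsp⟩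
      exact Set.Subset.antisymm hsp (mem_hyperplane_of_span hH)
    intro H hH H' hH' h
    have h' : S ∩ H = S ∩ H' := h
    rw [key H hH, key H' hH', h']
  refine Set.Finite.of_finite_image ?_ hinj
  refine hS.finite_subsets.subset ?_
  rintro _ ⟨H, _, rfl⟩
  exact Set.inter_subset_left

theorem dest_subset {E : Type*} [AddCommGroup E] [Module ℝ E] {S : Set E} {v : E} :
    Dest S v ⊆ {H | FacetOf S H} := by
  rintro H ⟨g, t, hg, hH, hle, hsp, ⟨z, hz, hzt⟩, _⟩
  refine ⟨⟨g, t, hg, hH, hle, hsp⟩, z, hz, ?_⟩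
  rw [hH]
  exact hzt.ne

/-- a destroyed facet plane never comes back -/
theorem dest_not_facet {E : Type*} [AddCommGroup E] [Module ℝ E] {S S' : Set E} {v : E}
    (hSS : S ⊆ S') (hv : v ∈ S') {H : Set E} (hH : H ∈ Dest S v) : ¬ FacetPlane S' H := by
  obtain ⟨g, t, hg, hH1, hle, hsp, ⟨z, hz, hzt⟩, hvt⟩ := hH
  rintro ⟨g', t', hg', hH2, hle', hsp'⟩
  -- the point of `H` on the segment from `z` to `v`
  set l : ℝ := (t - g z) / (g v - g z) with hl
  have hpos : 0 < g v - g z := by linarith
  have hl0 : 0 < l := div_pos (by linarith) hpos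
  have hl1 : l < 1 := by rw [hl, div_lt_one hpos]; linarith
  set p : E := z + l • (v - z) with hp
  have hgp : g p = t := by
    rw [hp, map_add, map_smul, map_sub, smul_eq_mul, hl, div_mul_cancel₀ _ hpos.ne']
    ring
  have hpH : p ∈ H := by rw [hH1]; exact hgp
  have hgp' : g' p = t' := by rw [hH2] at hpH; exact hpH
  have h1 : g' p = (1 - l) * g' z + l * g' v := by
    rw [hp, map_add, map_smul, map_sub, smul_eq_mul]; ring
  have h2 := hle' z (hSS hz)
  have h3 := hle' v hv
  have h4 : g' z = t' := by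
    by_contra hne
    have h5 : g' z < t' := lt_of_le_of_ne h2 hne
    nlinarith [mul_lt_mul_of_pos_left h5 (show 0 < 1 - l by linarith),
      mul_le_mul_of_nonneg_left h3 hl0.le]
  have h5 : z ∈ H := by rw [hH2]; exact h4
  rw [hH1] at h5
  exact hzt.ne h5

/-- the facet planes of `conv S` -/
def Facets {E : Type*} [AddCommGroup E] [Module ℝ E] (S : Set E) : Set (Set E) :=
  {H | FacetOf S H}

theorem facets_finite {E : Type*} [AddCommGroup E] [Module ℝ E] {S : Set E} (hS : S.Finite) :
    (Facets S).Finite :=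
  (facetPlane_finite hS).subset fun _ hH => hH.1

theorem dest_finite {E : Type*} [AddCommGroup E] [Module ℝ E] {S : Set E} (hS : S.Finite) (v : E) :
    (Dest S v).Finite :=
  (facetPlane_finite hS).subset fun _ hH => (dest_subset hH).1

/-- the total number of facet planes created in the steps `S 0, S 1, …, S N` -/
noncomputable def created {E : Type*} [AddCommGroup E] [Module ℝ E] (N : ℕ) (S : ℕ → Set E) : ℕ :=
  ∑ t ∈ Finset.range N, (Facets (S (t + 1)) \ Facets (S t)).ncard

theorem destroyed_le_created {E : Type*} [AddCommGroup E] [Module ℝ E] (S : ℕ → Set E)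
    (h0 : S 0 = ∅) : ∀ N : ℕ, (∀ t ≤ N, (S t).Finite) →
    (∑ t ∈ Finset.range N, (Facets (S t) \ Facets (S (t + 1))).ncard) + (Facets (S N)).ncard =
      created N S := by
  intro N
  induction N with
  | zero =>
    intro _
    have h1 : Facets (S 0) = ∅ := by
      rw [Set.eq_empty_iff_forall_notMem]
      rintro H ⟨_, z, hz, _⟩
      rw [h0] at hz
      exact hz
    simp [created, h1]
  | succ N ih =>
    intro hfin
    have h1 := ih fun t ht => hfin t (by omega)
    have hN := facets_finite (hfin N (by omega))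
    have hN' := facets_finite (hfin (N + 1) le_rfl)
    have h2 := Set.ncard_inter_add_ncard_diff_eq_ncard (Facets (S N)) (Facets (S (N + 1))) hN
    have h3 := Set.ncard_inter_add_ncard_diff_eq_ncard (Facets (S (N + 1))) (Facets (S N)) hN'
    rw [Set.inter_comm] at h3
    have h4 : created (N + 1) S =
        created N S + (Facets (S (N + 1)) \ Facets (S N)).ncard := by
      rw [created, created, Finset.sum_range_succ]
    rw [h4, ← h1, Finset.sum_range_succ]
    omega

/-- one insertion: `v = (mom a, mom y₀)` is inserted, `R` is the set of parameters of the points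
already in its row, `Q` is a set of other rows with at least one point, and the column of `v` has
at least one point -/
theorem insertion {j e i : ℕ} (hj : 1 ≤ j) (he : 2 * i + 2 ≤ e) {X Y : Finset ℝ} {W : Set ℝ}
    (hW : ∀ T ⊆ X, ∀ s ∈ X, (rootPoly T).eval s ∈ W ∧ -(rootPoly T).eval s ∈ W)
    (hY : Generic e W Y) {S : Set ((Fin (2 * j + 2) → ℝ) × (Fin e → ℝ))}
    (hS : S ⊆ (mom (2 * j + 2) '' (X : Set ℝ)) ×ˢ (mom e '' (Y : Set ℝ)))
    {a y₀ : ℝ} (hy₀ : y₀ ∈ Y) (hv : (mom (2 * j + 2) a, mom e y₀) ∉ S)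
    (hC : ∃ y₁, (mom (2 * j + 2) a, mom e y₁) ∈ S)
    {R Q : Finset ℝ} (hR : ∀ s, s ∈ R ↔ (mom (2 * j + 2) s, mom e y₀) ∈ S)
    (hQ : ∀ y ∈ Q, y ≠ y₀ ∧ ∃ s, (mom (2 * j + 2) s, mom e y) ∈ S) (hQe : e ≤ Q.card) :
    Nat.choose ((R.card - 4) / 2) j * Nat.choose Q.card i ≤
      Nat.choose e i * (Dest S (mom (2 * j + 2) a, mom e y₀)).ncard := by
  classical
  by_cases hsmall : (R.card - 4) / 2 < j
  · rw [Nat.choose_eq_zero_of_lt hsmall, zero_mul]; exact Nat.zero_le _
  have hRc : 2 * j + 2 < R.card := by omega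
  have hme : Function.Injective (mom e) := mom_injective (by omega)
  have hmd : Function.Injective (mom (2 * j + 2)) := mom_injective (by omega)
  have hSXY : ∀ s y, (mom (2 * j + 2) s, mom e y) ∈ S → s ∈ X ∧ y ∈ Y := by
    intro s y h
    obtain ⟨⟨s', hs', h1⟩, ⟨y', hy', h2⟩⟩ := hS h
    exact ⟨by rw [← hmd h1]; exact hs', by rw [← hme h2]; exact hy'⟩
  have hSrep : ∀ z ∈ S, ∃ s ∈ X, ∃ y ∈ Y, z = (mom (2 * j + 2) s, mom e y) := by
    intro z hz
    obtain ⟨⟨s', hs', h1⟩, ⟨y', hy', h2⟩⟩ := hS hz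
    exact ⟨s', hs', y', hy', Prod.ext h1.symm h2.symm⟩
  have hSfin : S.Finite := ((Set.toFinite _).prod (Set.toFinite _)).subset hS
  have hRX : R ⊆ X := fun s hs => (hSXY s y₀ ((hR s).1 hs)).1
  have ha : a ∉ R := fun h => hv ((hR a).1 h)
  obtain ⟨𝒯, ε, hε, h𝒯c, h𝒯⟩ := exists_visible j hj R a ha
  have hε0 : ε ≠ 0 := by rcases hε with h | h <;> rw [h] <;> norm_num
  set cell : Set ((Fin (2 * j + 2) → ℝ) × (Fin e → ℝ)) → Finset ℝ := fun H =>
    Y.filter (fun y => y ≠ y₀ ∧ ∃ s, (mom (2 * j + 2) s, mom e y) ∈ S ∩ H) with hcell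
  -- the rows span
  have hspan : Submodule.span ℝ
      ((fun z : (Fin (2 * j + 2) → ℝ) × (Fin e → ℝ) => z.2 - mom e y₀) '' S) = ⊤ := by
    by_contra hcon
    obtain ⟨g, hg0, hg⟩ := Submodule.exists_le_ker_of_lt_top _ (lt_top_iff_ne_top.2 hcon)
    apply hg0
    have hval : ∀ t ∈ Q, g (mom e t) = g (mom e y₀) := by
      intro t ht
      obtain ⟨_, s, hs⟩ := hQ t ht
      have h3 : mom e t - mom e y₀ ∈ Submodule.span ℝ
          ((fun z : (Fin (2 * j + 2) → ℝ) × (Fin e → ℝ) => z.2 - mom e y₀) '' S) :=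
        Submodule.subset_span ⟨_, hs, rfl⟩
      have h4 := hg h3
      rw [LinearMap.mem_ker, map_sub, sub_eq_zero] at h4
      exact h4
    refine eq_zero_of_const (T := insert y₀ Q) (c := g (mom e y₀)) ?_ ?_
    · rw [Finset.card_insert_of_notMem (fun h => (hQ y₀ h).1 rfl)]; omega
    · intro t ht
      rcases Finset.mem_insert.1 ht with rfl | ht
      · rfl
      · exact hval t ht
  have hex : ∀ T ∈ 𝒯, ∀ U ∈ Q.powersetCard i,
      ∃ H ∈ Dest S (mom (2 * j + 2) a, mom e y₀),
      T = R.filter (fun s => (mom (2 * j + 2) s, mom e y₀) ∈ H) ∧ U ⊆ cell H ∧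
      (cell H).card ≤ e := by
    intro T hT U hU
    obtain ⟨hUQ, hUc⟩ := Finset.mem_powersetCard.1 hU
    obtain ⟨hTR, hTc, hTR', hTa⟩ := h𝒯 T hT
    obtain ⟨φ, h, hφ0, hφ, hφs⟩ := exists_fun_rootPoly (D := 2 * j + 2) (by omega) hTc hε0
    have hzero : ∀ s, φ (mom (2 * j + 2) s) = h ↔ s ∈ T := by
      intro s
      rw [hφ, ← rootPoly_eval_eq_zero T s]
      constructor
      · intro h1
        have : ε * (rootPoly T).eval s = 0 := by linarith
        exact (mul_eq_zero.1 this).resolve_left hε0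
      · intro h1
        rw [h1]; ring
    have hTmem : ∀ s ∈ T, (mom (2 * j + 2) s, mom e y₀) ∈ S ∧ φ (mom (2 * j + 2) s) = h :=
      fun s hs => ⟨(hR s).1 (hTR hs), (hzero s).2 hs⟩
    have hTne : T.Nonempty := by rw [← Finset.card_pos]; omega
    have hy₀U : y₀ ∉ U := fun h' => (hQ y₀ (hUQ h')).1 rfl
    -- the highest point of each row of `U`
    have hmax : ∀ u ∈ U, ∃ s ∈ X, (mom (2 * j + 2) s, mom e u) ∈ S ∧
        ∀ s', (mom (2 * j + 2) s', mom e u) ∈ S → φ (mom (2 * j + 2) s') ≤ φ (mom (2 * j + 2) s) := by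
      intro u hu
      obtain ⟨_, s₁, hs₁⟩ := hQ u (hUQ hu)
      obtain ⟨s, hs, hmax⟩ := Finset.exists_max_image
        (X.filter (fun s => (mom (2 * j + 2) s, mom e u) ∈ S)) (fun s => φ (mom (2 * j + 2) s))
        ⟨s₁, Finset.mem_filter.2 ⟨(hSXY _ _ hs₁).1, hs₁⟩⟩
      refine ⟨s, (Finset.mem_filter.1 hs).1, (Finset.mem_filter.1 hs).2, ?_⟩
      intro s' hs'
      exact hmax s' (Finset.mem_filter.2 ⟨(hSXY _ _ hs').1, hs'⟩)
    choose! σ hσX hσS hσmax using hmax
    -- the functionals `ψ₀` and `β`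
    set U₀ := insert y₀ U with hU₀
    have hU₀c : U₀.card = i + 1 := by rw [hU₀, Finset.card_insert_of_notMem hy₀U, hUc]
    set r : ℝ → ℝ := fun y => if y = y₀ then 0 else h - φ (mom (2 * j + 2) (σ y)) with hr
    set P₀ : ℝ[X] := Lagrange.interpolate U₀ id r with hP₀
    have hP₀d : P₀.natDegree ≤ e := by
      have h1 : P₀.degree < (U₀.card : ℕ) :=
        Lagrange.degree_interpolate_lt r (Set.injOn_id _)
      rw [hU₀c] at h1
      have h2 : P₀.natDegree ≤ i + 1 := natDegree_le_of_degree_le h1.le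
      omega
    have hP₀v : ∀ y ∈ U₀, P₀.eval y = r y := fun y hy =>
      Lagrange.eval_interpolate_at_node r (Set.injOn_id _) hy
    set ψ₀ := funOf e P₀ with hψ₀
    have hψ₀v : ∀ t, ψ₀ (mom e t) = P₀.eval t - P₀.coeff 0 := funOf_mom hP₀d
    set q₀ : ℝ[X] := -(rootPoly U₀ ^ 2) with hq₀
    have hq₀d : q₀.natDegree ≤ e := by
      rw [hq₀, natDegree_neg]
      refine natDegree_pow_le.trans ?_
      rw [rootPoly_natDegree, hU₀c]
      omega
    set β := funOf e q₀ with hβ
    have hβv : ∀ t, β (mom e t) = -((rootPoly U₀).eval t) ^ 2 - q₀.coeff 0 := by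
      intro t
      rw [hβ, funOf_mom hq₀d, hq₀, eval_neg, eval_pow]
    have hy₀U₀ : y₀ ∈ U₀ := Finset.mem_insert_self _ _
    have hβ₀ : β (mom e y₀) = -q₀.coeff 0 := by
      rw [hβv, (rootPoly_eval_eq_zero U₀ y₀).2 hy₀U₀]
      ring
    have hβeq : ∀ t, β (mom e t) = β (mom e y₀) ↔ t ∈ U₀ := by
      intro t
      rw [hβ₀, hβv, ← rootPoly_eval_eq_zero U₀ t]
      constructor
      · intro h1
        have h2 : ((rootPoly U₀).eval t) ^ 2 = 0 := by linarith
        exact pow_eq_zero_iff (two_ne_zero) |>.1 h2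
      · intro h1
        rw [h1]
        ring
    obtain ⟨ψ, hψ1, hψk, hψ2⟩ := lift_facet hSfin (b₀ := mom e y₀) (β := β) (ψ₀ := ψ₀)
      (φ := φ) (h := h) (by
        intro z hz
        obtain ⟨s, hs, y, hy, rfl⟩ := hSrep z hz
        change β (mom e y) ≤ β (mom e y₀)
        rw [hβ₀, hβv]
        nlinarith [sq_nonneg ((rootPoly U₀).eval y)]) (by
        intro z hz hzβ
        obtain ⟨s, hs, y, hy, rfl⟩ := hSrep z hz
        change β (mom e y) = β (mom e y₀) at hzβ
        rw [hβeq] at hzβ
        change φ (mom (2 * j + 2) s) + ψ₀ (mom e y) ≤ h + ψ₀ (mom e y₀)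
        rw [hψ₀v, hψ₀v, hP₀v y hzβ, hP₀v y₀ hy₀U₀]
        have hr0 : r y₀ = 0 := if_pos rfl
        rcases Finset.mem_insert.1 hzβ with h1 | h1
        · rw [h1, hr0, hφ]
          have h2 : s ∈ R := (hR s).2 (by rw [← h1]; exact hz)
          linarith [hTR' s h2]
        · have h2 : y ≠ y₀ := fun h' => hy₀U (h' ▸ h1)
          have hry : r y = h - φ (mom (2 * j + 2) (σ y)) := if_neg h2
          rw [hry, hr0]
          linarith [hσmax y h1 s hz]) hspan (by
        refine hφs.trans ?_
        apply affineSpan_mono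
        rintro _ ⟨s, hs, rfl⟩
        exact hTmem s hs) (by
        obtain ⟨s, hs⟩ := hTne
        exact ⟨_, hTmem s hs⟩)
    refine ⟨{z | φ z.1 + ψ z.2 = h + ψ (mom e y₀)}, ?_, ?_, ?_, ?_⟩
    · refine ⟨φ.comp (LinearMap.fst ℝ _ _) + ψ.comp (LinearMap.snd ℝ _ _), h + ψ (mom e y₀),
        ?_, ?_, ?_, hψ2, ?_, ?_⟩
      · intro h0
        apply hφ0
        ext i
        have := LinearMap.congr_fun h0 (Pi.single i 1, 0)
        simpa using this
      · rfl
      · intro z hz
        exact hψ1 z hz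
      · obtain ⟨s, hs, hsT⟩ : ∃ s ∈ R, s ∉ T := by
          by_contra hcon
          push Not at hcon
          have := Finset.card_le_card (show R ⊆ T from hcon)
          omega
        refine ⟨(mom (2 * j + 2) s, mom e y₀), (hR s).1 hs, ?_⟩
        change φ (mom (2 * j + 2) s) + ψ (mom e y₀) < h + ψ (mom e y₀)
        have h1 := hTR' s hs
        have h2 : φ (mom (2 * j + 2) s) ≠ h := fun h' => hsT ((hzero s).1 h')
        have h3 : φ (mom (2 * j + 2) s) ≤ h := by rw [hφ]; linarith
        have h4 := lt_of_le_of_ne h3 h2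
        linarith
      · change h + ψ (mom e y₀) < φ (mom (2 * j + 2) a) + ψ (mom e y₀)
        rw [hφ]
        linarith
    · ext s
      rw [Finset.mem_filter]
      change s ∈ T ↔ s ∈ R ∧ φ (mom (2 * j + 2) s) + ψ (mom e y₀) = h + ψ (mom e y₀)
      constructor
      · intro hs
        exact ⟨hTR hs, by rw [(hzero s).2 hs]⟩
      · rintro ⟨_, hs⟩
        exact (hzero s).1 (by linarith)
    · intro u hu
      have hune : u ≠ y₀ := fun h' => hy₀U (h' ▸ hu)
      refine Finset.mem_filter.2 ⟨(hSXY _ _ (hσS u hu)).2, hune, σ u, hσS u hu, ?_⟩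
      refine hψk _ (hσS u hu) ((hβeq u).2 (Finset.mem_insert_of_mem hu)) ?_
      change φ (mom (2 * j + 2) (σ u)) + ψ₀ (mom e u) = h + ψ₀ (mom e y₀)
      have hr0 : r y₀ = 0 := if_pos rfl
      have hru : r u = h - φ (mom (2 * j + 2) (σ u)) := if_neg hune
      rw [hψ₀v, hψ₀v, hP₀v u (Finset.mem_insert_of_mem hu), hP₀v y₀ hy₀U₀, hr0, hru]
      ring
    · -- the cell is small
      set H : Set ((Fin (2 * j + 2) → ℝ) × (Fin e → ℝ)) :=
        {z | φ z.1 + ψ z.2 = h + ψ (mom e y₀)} with hH
      set p : ℝ[X] := C (ψ (mom e y₀)) - polyOf ψ with hp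
      have hpv : ∀ t, p.eval t = ψ (mom e y₀) - ψ (mom e t) := by
        intro t
        rw [hp, eval_sub, eval_C, eval_polyOf]
      have hpd : p.natDegree ≤ e := by
        refine (natDegree_sub_le _ _).trans (max_le ?_ (natDegree_polyOf ψ))
        rw [natDegree_C]
        exact Nat.zero_le _
      have hpc : ∀ c, p ≠ C c := by
        intro c hc
        have h1 : polyOf ψ = C (ψ (mom e y₀) - c) := by
          rw [C_sub, ← hc, hp]
          ring
        have h2 : ψ = 0 := polyOf_eq_C h1
        obtain ⟨y₁, hy₁⟩ := hC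
        have h3 := hψ1 _ hy₁
        rw [h2] at h3
        simp only [LinearMap.zero_apply, add_zero] at h3
        rw [hφ] at h3
        linarith
      have hval : ∀ s ∈ X, φ (mom (2 * j + 2) s) - h ∈ W := by
        intro s hs
        have h1 := hW T (hTR.trans hRX) s hs
        rw [hφ]
        rcases hε with h2 | h2
        · rw [h2]
          have : h - 1 * (rootPoly T).eval s - h = -(rootPoly T).eval s := by ring
          rw [this]
          exact h1.2
        · rw [h2]
          have : h - -1 * (rootPoly T).eval s - h = (rootPoly T).eval s := by ring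
          rw [this]
          exact h1.1
      have hins : (insert y₀ (cell H)).card ≤ e + 1 := by
        apply hY p hpd hpc
        · intro y hy
          rcases Finset.mem_insert.1 hy with rfl | hy
          · exact hy₀
          · exact (Finset.mem_filter.1 hy).1
        · intro y hy
          rcases Finset.mem_insert.1 hy with rfl | hy
          · rw [hpv, sub_self]
            obtain ⟨s, hs⟩ := hTne
            have := hval s (hRX (hTR hs))
            rwa [(hzero s).2 hs, sub_self] at this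
          · obtain ⟨_, _, s, hsS, hsH⟩ := Finset.mem_filter.1 hy
            have h1 : φ (mom (2 * j + 2) s) + ψ (mom e y) = h + ψ (mom e y₀) := hsH
            have h2 := hval s (hSXY _ _ hsS).1
            rw [hpv]
            have h3 : ψ (mom e y₀) - ψ (mom e y) = φ (mom (2 * j + 2) s) - h := by linarith
            rw [h3]
            exact h2
      rw [Finset.card_insert_of_notMem] at hins
      · omega
      · intro h'
        exact (Finset.mem_filter.1 h').2.1 rfl
  choose! G hG1 hG2 hG3 hG4 using hex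
  have hfin := dest_finite hSfin (mom (2 * j + 2) a, mom e y₀)
  rw [Set.ncard_eq_toFinset_card _ hfin]
  have hcount : (𝒯 ×ˢ Q.powersetCard i).card ≤ Nat.choose e i * hfin.toFinset.card := by
    refine Finset.card_le_mul_card_image_of_maps_to (f := fun p => G p.1 p.2) ?_ _ ?_
    · intro p hp
      obtain ⟨h1, h2⟩ := Finset.mem_product.1 hp
      rw [Set.Finite.mem_toFinset]
      exact hG1 p.1 h1 p.2 h2
    · intro H _
      by_cases hne : ((𝒯 ×ˢ Q.powersetCard i).filter (fun p => G p.1 p.2 = H)).Nonempty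
      · obtain ⟨p₁, hp₁⟩ := hne
        obtain ⟨hp₁', hp₁H⟩ := Finset.mem_filter.1 hp₁
        obtain ⟨h11, h12⟩ := Finset.mem_product.1 hp₁'
        have hcH : (cell H).card ≤ e := by
          rw [← hp₁H]
          exact hG4 p₁.1 h11 p₁.2 h12
        calc ((𝒯 ×ˢ Q.powersetCard i).filter (fun p => G p.1 p.2 = H)).card
            ≤ ((cell H).powersetCard i).card := by
              refine Finset.card_le_card_of_injOn (fun p => p.2) ?_ ?_
              · intro p hp
                obtain ⟨hp', hpH⟩ := Finset.mem_filter.1 (Finset.mem_coe.1 hp)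
                obtain ⟨h1, h2⟩ := Finset.mem_product.1 hp'
                rw [Finset.mem_coe, Finset.mem_powersetCard]
                refine ⟨?_, (Finset.mem_powersetCard.1 h2).2⟩
                rw [← hpH]
                exact hG3 p.1 h1 p.2 h2
              · intro p hp p' hp' h
                obtain ⟨hp1, hpH⟩ := Finset.mem_filter.1 (Finset.mem_coe.1 hp)
                obtain ⟨h1, h2⟩ := Finset.mem_product.1 hp1
                obtain ⟨hp1', hpH'⟩ := Finset.mem_filter.1 (Finset.mem_coe.1 hp')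
                obtain ⟨h1', h2'⟩ := Finset.mem_product.1 hp1'
                refine Prod.ext ?_ h
                rw [hG2 p.1 h1 p.2 h2, hG2 p'.1 h1' p'.2 h2', hpH, hpH']
          _ = Nat.choose (cell H).card i := Finset.card_powersetCard _ _
          _ ≤ Nat.choose e i := Nat.choose_le_choose _ hcH
      · rw [Finset.not_nonempty_iff_eq_empty] at hne
        rw [hne, Finset.card_empty]
        exact Nat.zero_le _
  rw [Finset.card_product, Finset.card_powersetCard] at hcount
  exact (Nat.mul_le_mul_right _ h𝒯c).trans hcount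

end Pool.Agent.IncHull
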