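import Pool.Agent.Work.MP_dfcec9_lc.Defs

/-!
Lifting: a facet of a row is the trace of a facet plane of the whole set.
-/

namespace Pool.Agent.IncHull

/-- a polyhedron given by finitely many inequalities whose normals span has a vertex -/
theorem exists_vertex {F : Type*} [AddCommGroup F] [Module ℝ F] [FiniteDimensional ℝ F]
    {ι : Type*} (s : Finset ι) (u : ι → F) (c : ι → ℝ)
    (hspan : Submodule.span ℝ (u '' (s : Set ι)) = ⊤) :
    ∀ (n : ℕ) (ψ : F →ₗ[ℝ] ℝ), (∀ i ∈ s, ψ (u i) ≤ c i) →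
      Module.finrank ℝ F ≤
        Module.finrank ℝ (Submodule.span ℝ (u '' {i | i ∈ s ∧ ψ (u i) = c i})) + n →
      ∃ ψ' : F →ₗ[ℝ] ℝ, (∀ i ∈ s, ψ' (u i) ≤ c i) ∧
        (∀ i ∈ s, ψ (u i) = c i → ψ' (u i) = c i) ∧
        Submodule.span ℝ (u '' {i | i ∈ s ∧ ψ' (u i) = c i}) = ⊤ := by
  intro n
  induction n with
  | zero =>
    intro ψ hψ hn
    refine ⟨ψ, hψ, fun _ _ h => h, ?_⟩
    apply Submodule.eq_top_of_finrank_eq
    apply le_antisymm (Submodule.finrank_le _)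
    simpa using hn
  | succ n ih =>
    intro ψ hψ hn
    set W := Submodule.span ℝ (u '' {i | i ∈ s ∧ ψ (u i) = c i}) with hW
    by_cases htop : W = ⊤
    · exact ⟨ψ, hψ, fun _ _ h => h, htop⟩
    -- a functional vanishing on `W`, not zero
    obtain ⟨i₀, hi₀s, hi₀⟩ : ∃ i ∈ s, u i ∉ W := by
      by_contra hcon
      push Not at hcon
      apply htop
      rw [eq_top_iff, ← hspan, Submodule.span_le]
      rintro _ ⟨i, hi, rfl⟩
      exact hcon i hi
    obtain ⟨w₀, hw₀, hw₀W⟩ := Submodule.exists_le_ker_of_notMem hi₀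
    obtain ⟨w, hw, hwW⟩ : ∃ w : F →ₗ[ℝ] ℝ, 0 < w (u i₀) ∧ W ≤ LinearMap.ker w := by
      rcases lt_or_gt_of_ne hw₀ with h | h
      · refine ⟨-w₀, by simpa using h, ?_⟩
        intro x hx
        have := hw₀W hx
        simp only [LinearMap.mem_ker] at this ⊢
        simp [this]
      · exact ⟨w₀, h, hw₀W⟩
    -- the step
    set P := s.filter (fun i => 0 < w (u i)) with hP
    have hPne : P.Nonempty := ⟨i₀, by simp [hP, hi₀s, hw]⟩
    obtain ⟨j, hjP, hjmin⟩ := Finset.exists_min_image P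
      (fun i => (c i - ψ (u i)) / w (u i)) hPne
    have hjs : j ∈ s := (Finset.mem_filter.1 hjP).1
    have hjw : 0 < w (u j) := (Finset.mem_filter.1 hjP).2
    set τ := (c j - ψ (u j)) / w (u j) with hτ
    have hτ0 : 0 ≤ τ := div_nonneg (by linarith [hψ j hjs]) hjw.le
    set ψ₁ := ψ + τ • w with hψ₁
    have hval : ∀ i, ψ₁ (u i) = ψ (u i) + τ * w (u i) := by
      intro i; simp [hψ₁]
    have hfeas : ∀ i ∈ s, ψ₁ (u i) ≤ c i := by
      intro i hi
      rw [hval]
      by_cases hpos : 0 < w (u i)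
      · have h1 := hjmin i (by simp [hP, hi, hpos])
        have h2 : τ * w (u i) ≤ c i - ψ (u i) := by
          rw [← le_div_iff₀ hpos]; exact h1
        linarith
      · have h1 : τ * w (u i) ≤ 0 := mul_nonpos_of_nonneg_of_nonpos hτ0 (not_lt.1 hpos)
        linarith [hψ i hi]
    have hjt : ψ₁ (u j) = c j := by
      rw [hval, hτ]
      field_simp
      ring
    set W₁ := Submodule.span ℝ (u '' {i | i ∈ s ∧ ψ₁ (u i) = c i}) with hW₁
    have hkeep : ∀ i ∈ s, ψ (u i) = c i → ψ₁ (u i) = c i := by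
      intro i hi hit
      have : w (u i) = 0 := by
        have := hwW (Submodule.subset_span (s := (u '' {i | i ∈ s ∧ ψ (u i) = c i})) ⟨i, ⟨hi, hit⟩, rfl⟩)
        simpa using this
      rw [hval, this, mul_zero, add_zero, hit]
    have hle : W ≤ W₁ := by
      rw [hW, Submodule.span_le]
      rintro _ ⟨i, ⟨hi, hit⟩, rfl⟩
      exact Submodule.subset_span ⟨i, ⟨hi, hkeep i hi hit⟩, rfl⟩
    have hlt : W < W₁ := by
      refine lt_of_le_of_ne hle fun heq => ?_
      have h1 : u j ∈ W₁ := Submodule.subset_span ⟨j, ⟨hjs, hjt⟩, rfl⟩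
      rw [← heq] at h1
      have := hwW h1
      rw [LinearMap.mem_ker] at this
      linarith
    have hfin := Submodule.finrank_lt_finrank_of_lt hlt
    obtain ⟨ψ', h1, h2, h3⟩ := ih ψ₁ hfeas (by rw [← hW₁]; omega)
    exact ⟨ψ', h1, fun i hi hit => h2 i hi (hkeep i hi hit), h3⟩

theorem exists_vertex' {F : Type*} [AddCommGroup F] [Module ℝ F] [FiniteDimensional ℝ F]
    {ι : Type*} (s : Finset ι) (u : ι → F) (c : ι → ℝ)
    (hspan : Submodule.span ℝ (u '' (s : Set ι)) = ⊤)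
    (ψ : F →ₗ[ℝ] ℝ) (hψ : ∀ i ∈ s, ψ (u i) ≤ c i) :
    ∃ ψ' : F →ₗ[ℝ] ℝ, (∀ i ∈ s, ψ' (u i) ≤ c i) ∧
      (∀ i ∈ s, ψ (u i) = c i → ψ' (u i) = c i) ∧
      Submodule.span ℝ (u '' {i | i ∈ s ∧ ψ' (u i) = c i}) = ⊤ :=
  exists_vertex s u c hspan (Module.finrank ℝ F) ψ hψ (by omega)

/-- **lift**: `b₀` lies on the face of the rows of `S` exposed by `β`, on which `ψ₀` is feasible;
the rows span `F`.  A facet `{φ = h}` of the row over `b₀` is the trace of a facet plane
`{φ + ψ = h + ψ b₀}` of `S`, which contains the points of the exposed face which are tight for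
`ψ₀`. -/
theorem lift_facet {E F : Type*} [AddCommGroup E] [Module ℝ E] [AddCommGroup F] [Module ℝ F]
    [FiniteDimensional ℝ F] {S : Set (E × F)} (hS : S.Finite) {b₀ : F} {β ψ₀ : F →ₗ[ℝ] ℝ}
    {φ : E →ₗ[ℝ] ℝ} {h : ℝ}
    (hβ : ∀ z ∈ S, β z.2 ≤ β b₀)
    (h0 : ∀ z ∈ S, β z.2 = β b₀ → φ z.1 + ψ₀ z.2 ≤ h + ψ₀ b₀)
    (hspan : Submodule.span ℝ ((fun z : E × F => z.2 - b₀) '' S) = ⊤)
    (hT : {a | φ a = h} ⊆ (affineSpan ℝ {a | (a, b₀) ∈ S ∧ φ a = h} : Set E))
    (hne : ∃ a, (a, b₀) ∈ S ∧ φ a = h) :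
    ∃ ψ : F →ₗ[ℝ] ℝ, (∀ z ∈ S, φ z.1 + ψ z.2 ≤ h + ψ b₀) ∧
      (∀ z ∈ S, β z.2 = β b₀ → φ z.1 + ψ₀ z.2 = h + ψ₀ b₀ → φ z.1 + ψ z.2 = h + ψ b₀) ∧
      {z : E × F | φ z.1 + ψ z.2 = h + ψ b₀} ⊆
        (affineSpan ℝ (S ∩ {z : E × F | φ z.1 + ψ z.2 = h + ψ b₀}) : Set (E × F)) := by
  classical
  set s : Finset (E × F) := hS.toFinset.filter (fun z => z.2 ≠ b₀) with hs
  have hmem : ∀ z, z ∈ s ↔ z ∈ S ∧ z.2 ≠ b₀ := by
    intro z; simp [hs]
  set u : E × F → F := fun z => z.2 - b₀ with hu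
  set c : E × F → ℝ := fun z => h - φ z.1 with hc
  have hsp : Submodule.span ℝ (u '' (s : Set (E × F))) = ⊤ := by
    rw [eq_top_iff, ← hspan, Submodule.span_le]
    rintro _ ⟨z, hz, rfl⟩
    by_cases hzb : z.2 = b₀
    · have h0 : z.2 - b₀ = 0 := sub_eq_zero.2 hzb
      simp only [hu, SetLike.mem_coe]
      rw [h0]
      exact Submodule.zero_mem _
    · exact Submodule.subset_span ⟨z, by simpa using (hmem z).2 ⟨hz, hzb⟩, rfl⟩
  have hφ : ∀ a, (a, b₀) ∈ S → φ a ≤ h := by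
    intro a ha
    have := h0 (a, b₀) ha rfl
    simpa using this
  -- a feasible functional
  obtain ⟨K, hK⟩ := Finset.exists_le
    (s.image fun z => (φ z.1 + ψ₀ z.2 - h - ψ₀ b₀) / (β b₀ - β z.2))
  have hfeas : ∀ z ∈ s, (ψ₀ + K • β) (u z) ≤ c z := by
    intro z hz
    have hzS := (hmem z).1 hz
    simp only [LinearMap.add_apply, LinearMap.smul_apply, smul_eq_mul, hu, hc, map_sub]
    rcases (hβ z hzS.1).lt_or_eq with hlt | heq
    · have h1 : 0 < β b₀ - β z.2 := by linarith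
      have h2 : (φ z.1 + ψ₀ z.2 - h - ψ₀ b₀) / (β b₀ - β z.2) ≤ K :=
        hK _ (Finset.mem_image_of_mem _ hz)
      rw [div_le_iff₀ h1] at h2
      linarith
    · have h1 := h0 z hzS.1 heq
      rw [heq]
      linarith
  obtain ⟨ψ, hψ1, hψk, hψ2⟩ := exists_vertex' s u c hsp (ψ₀ + K • β) hfeas
  refine ⟨ψ, ?_, ?_, ?_⟩
  · intro z hz
    by_cases hzb : z.2 = b₀
    · have : (z.1, b₀) ∈ S := by rw [← hzb]; exact hz
      rw [hzb]
      linarith [hφ z.1 this]
    · have := hψ1 z ((hmem z).2 ⟨hz, hzb⟩)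
      simp only [hu, hc, map_sub] at this
      linarith
  · intro z hz hzβ hzt
    by_cases hzb : z.2 = b₀
    · rw [hzb] at hzt ⊢
      linarith
    · have := hψk z ((hmem z).2 ⟨hz, hzb⟩) (by
        simp only [LinearMap.add_apply, LinearMap.smul_apply, smul_eq_mul, hu, hc, map_sub]
        rw [hzβ]
        linarith)
      simp only [hu, hc, map_sub] at this
      linarith
  · obtain ⟨a₀, ha₀S, ha₀⟩ := hne
    set H : Set (E × F) := {z : E × F | φ z.1 + ψ z.2 = h + ψ b₀} with hH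
    set A := affineSpan ℝ (S ∩ H) with hA
    have hp0 : ((a₀, b₀) : E × F) ∈ A :=
      subset_affineSpan ℝ _ ⟨ha₀S, by simp [hH, ha₀]⟩
    -- horizontal directions
    have hhor : ∀ x : E, φ x = 0 → ((x, 0) : E × F) ∈ A.direction := by
      intro x hx
      have h1 : x + a₀ ∈ (affineSpan ℝ {a | (a, b₀) ∈ S ∧ φ a = h} : Set E) := by
        apply hT
        simp [hx, ha₀]
      have hmap : ∀ y ∈ affineSpan ℝ {a | (a, b₀) ∈ S ∧ φ a = h}, ((y, b₀) : E × F) ∈ A := by
        intro y hy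
        let L : E →ᵃ[ℝ] E × F :=
          { toFun := fun a => (a, b₀)
            linear := LinearMap.inl ℝ E F
            map_vadd' := by intro p v; simp }
        have h2 : L y ∈ (affineSpan ℝ {a | (a, b₀) ∈ S ∧ φ a = h}).map L :=
          AffineSubspace.mem_map_of_mem L hy
        rw [AffineSubspace.map_span] at h2
        refine affineSpan_mono ℝ ?_ h2
        rintro _ ⟨a, ⟨ha1, ha2⟩, rfl⟩
        exact ⟨ha1, by simp [hH, L, ha2]⟩
      have h2 := AffineSubspace.vsub_mem_direction (hmap _ h1) hp0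
      simpa using h2
    -- tight rows
    have htight : ∀ y ∈ Submodule.span ℝ (u '' {z | z ∈ s ∧ ψ (u z) = c z}),
        ∃ x : E, ((x, y) : E × F) ∈ A.direction ∧ φ x + ψ y = 0 := by
      intro y hy
      induction hy using Submodule.span_induction with
      | mem y hy =>
        obtain ⟨z, ⟨hzs, hzt⟩, rfl⟩ := hy
        have hzS := (hmem z).1 hzs
        have hzH : z ∈ H := by
          simp only [hu, hc, map_sub] at hzt
          change φ z.1 + ψ z.2 = h + ψ b₀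
          linarith
        refine ⟨z.1 - a₀, ?_, ?_⟩
        · exact AffineSubspace.vsub_mem_direction
            (subset_affineSpan ℝ _ ⟨hzS.1, hzH⟩ : z ∈ A) hp0
        · simp only [hu, hc, map_sub] at hzt ⊢
          rw [ha₀]
          linarith
      | zero => exact ⟨0, A.direction.zero_mem, by rw [map_zero, map_zero, add_zero]⟩
      | add y₁ y₂ _ _ h1 h2 =>
        obtain ⟨x₁, hx₁, hx₁'⟩ := h1
        obtain ⟨x₂, hx₂, hx₂'⟩ := h2
        refine ⟨x₁ + x₂, by simpa using A.direction.add_mem hx₁ hx₂, ?_⟩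
        rw [map_add, map_add]
        linarith
      | smul r y _ h1 =>
        obtain ⟨x, hx, hx'⟩ := h1
        refine ⟨r • x, by simpa using A.direction.smul_mem r hx, ?_⟩
        rw [map_smul, map_smul, smul_eq_mul, smul_eq_mul, ← mul_add, hx', mul_zero]
    intro z hz
    obtain ⟨x, hx, hx'⟩ := htight (z.2 - b₀) (by rw [hψ2]; trivial)
    have hz' : φ z.1 + ψ z.2 = h + ψ b₀ := hz
    have h1 : ((z.1 - a₀ - x, 0) : E × F) ∈ A.direction := by
      apply hhor
      rw [map_sub, map_sub, ha₀]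
      rw [map_sub] at hx'
      linarith
    have h2 : ((z.1 - a₀, z.2 - b₀) : E × F) ∈ A.direction := by
      have := A.direction.add_mem h1 hx
      simpa using this
    have h3 := AffineSubspace.vadd_mem_of_mem_direction h2 hp0
    simpa using h3

end Pool.Agent.IncHull
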