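import Pool.Agent.Work.MP_dfcec9_lc.Dest

/-!
Every insertion order of a product of point sets on moment curves creates many facet planes.
-/

namespace Pool.Agent.IncHull

theorem exists_first (Y : Finset ℝ) (f : ℝ → ℕ) : ∀ e : ℕ, e ≤ Y.card →
    ∃ F ⊆ Y, F.card = e ∧ ∀ y ∈ F, ∀ y' ∈ Y, y' ∉ F → f y ≤ f y' := by
  classical
  intro e
  induction e with
  | zero => intro _; exact ⟨∅, by simp, by simp, by simp⟩
  | succ e ih =>
    intro he
    obtain ⟨F, hFY, hFc, hF⟩ := ih (by omega)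
    have hne : (Y \ F).Nonempty := by
      rw [← Finset.card_pos, Finset.card_sdiff_of_subset hFY]
      omega
    obtain ⟨y₁, hy₁, hmin⟩ := Finset.exists_min_image (Y \ F) f hne
    have hy₁' := Finset.mem_sdiff.1 hy₁
    refine ⟨insert y₁ F, Finset.insert_subset hy₁'.1 hFY, ?_, ?_⟩
    · rw [Finset.card_insert_of_notMem hy₁'.2, hFc]
    · intro y hy y' hy' hnot
      have h1 : y' ∉ F := fun h => hnot (Finset.mem_insert_of_mem h)
      rcases Finset.mem_insert.1 hy with rfl | hy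
      · exact hmin y' (Finset.mem_sdiff.2 ⟨hy', h1⟩)
      · exact hF y hy y' hy' h1

theorem sum_rank (f : ℕ → ℕ) (J : Finset ℕ) :
    ∑ i ∈ J, f (J.filter (fun i' => i' < i)).card = ∑ r ∈ Finset.range J.card, f r := by
  classical
  induction J using Finset.induction_on_max with
  | empty => simp
  | insert a s ha ih =>
    have hnot : a ∉ s := fun h => lt_irrefl _ (ha a h)
    rw [Finset.sum_insert hnot, Finset.card_insert_of_notMem hnot, Finset.sum_range_succ, ← ih,
      add_comm]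
    congr 1
    · refine Finset.sum_congr rfl fun i hi => ?_
      congr 2
      rw [Finset.filter_insert, if_neg (not_lt.2 (ha i hi).le)]
    · congr 2
      rw [Finset.filter_insert, if_neg (lt_irrefl a)]
      exact Finset.filter_true_of_mem ha

/-- the lower bound in terms of insertion times: `τ s y` is the time at which the point with
parameters `s`, `y` is inserted -/
theorem dest_sum_lower {j e i : ℕ} (hj : 1 ≤ j) (he : 2 * i + 2 ≤ e) (X Y : Finset ℝ)
    {W : Set ℝ} (hW : ∀ T ⊆ X, ∀ s ∈ X, (rootPoly T).eval s ∈ W ∧ -(rootPoly T).eval s ∈ W)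
    (hG : Generic e W Y) {m₁ : ℕ} (hem₁ : e ≤ m₁) (hm₁ : m₁ ≤ Y.card)
    (S : ℕ → Set ((Fin (2 * j + 2) → ℝ) × (Fin e → ℝ))) (τ : ℝ → ℝ → ℕ)
    (hSV : ∀ s ∈ X, ∀ y ∈ Y,
      S (τ s y) ⊆ (mom (2 * j + 2) '' (X : Set ℝ)) ×ˢ (mom e '' (Y : Set ℝ)))
    (hnot : ∀ s ∈ X, ∀ y ∈ Y, (mom (2 * j + 2) s, mom e y) ∉ S (τ s y))
    (hin : ∀ s ∈ X, ∀ y ∈ Y, ∀ s' ∈ X, ∀ y' ∈ Y, τ s' y' < τ s y →
      (mom (2 * j + 2) s', mom e y') ∈ S (τ s y))
    (hinj : ∀ s ∈ X, ∀ y ∈ Y, ∀ s' ∈ X, ∀ y' ∈ Y, τ s y = τ s' y' → s = s' ∧ y = y') :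
    (Y.card - m₁) * (∑ r ∈ Finset.range X.card, Nat.choose ((r - 4) / 2) j) * Nat.choose m₁ i ≤
      Nat.choose e i * (∑ y ∈ Y, ∑ s ∈ X,
          (Dest (S (τ s y)) (mom (2 * j + 2) s, mom e y)).ncard) +
        X.card * (Nat.choose ((X.card - 4) / 2) j * Nat.choose m₁ i) := by
  classical
  rcases X.eq_empty_or_nonempty with hX | hX
  · rw [hX]; simp
  have hme : Function.Injective (mom e) := mom_injective (by omega)
  have hmd : Function.Injective (mom (2 * j + 2)) := mom_injective (by omega)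
  -- start times
  have hst : ∀ y : ℝ, ∃ s ∈ X, ∀ s' ∈ X, τ s y ≤ τ s' y := fun y =>
    Finset.exists_min_image X (fun s => τ s y) hX
  choose st hstX hstmin using hst
  obtain ⟨F, hFY, hFc, hF⟩ := exists_first Y (fun y => τ (st y) y) m₁ hm₁
  -- the rank of a point in its row
  set rk : ℝ → ℝ → ℕ := fun s y => (X.filter (fun s' => τ s' y < τ s y)).card with hrk
  have hrksum : ∀ y ∈ Y, ∑ s ∈ X, Nat.choose ((rk s y - 4) / 2) j =
      ∑ r ∈ Finset.range X.card, Nat.choose ((r - 4) / 2) j := by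
    intro y hy
    have hinjy : Set.InjOn (fun s => τ s y) (X : Set ℝ) := fun s hs s' hs' h =>
      (hinj s hs y hy s' hs' y hy h).1
    have h1 := sum_rank (fun r => Nat.choose ((r - 4) / 2) j) (X.image fun s => τ s y)
    rw [Finset.card_image_of_injOn hinjy, Finset.sum_image hinjy] at h1
    rw [← h1]
    refine Finset.sum_congr rfl fun s hs => ?_
    have h2 : (X.image fun s => τ s y).filter (fun i' => i' < τ s y) =
        (X.filter (fun s' => τ s' y < τ s y)).image fun s => τ s y := by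
      rw [Finset.filter_image]
    rw [h2, Finset.card_image_of_injOn]
    intro s₁ hs₁ s₂ hs₂ h
    exact hinjy (Finset.mem_coe.2 (Finset.mem_filter.1 (Finset.mem_coe.1 hs₁)).1)
      (Finset.mem_coe.2 (Finset.mem_filter.1 (Finset.mem_coe.1 hs₂)).1) h
  -- the first points of the columns
  set Ex : ℝ → ℝ → Prop := fun s y => ∀ y₁ ∈ Y, ¬ τ s y₁ < τ s y with hEx
  -- one insertion
  have hstep : ∀ y ∈ Y \ F, ∀ s ∈ X, ¬ Ex s y →
      Nat.choose ((rk s y - 4) / 2) j * Nat.choose m₁ i ≤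
        Nat.choose e i * (Dest (S (τ s y)) (mom (2 * j + 2) s, mom e y)).ncard := by
    intro y hyF s hs hE
    obtain ⟨hy, hyF⟩ := Finset.mem_sdiff.1 hyF
    by_cases hr : rk s y = 0
    · rw [hr, Nat.choose_eq_zero_of_lt (by omega), zero_mul]
      exact Nat.zero_le _
    obtain ⟨s₁, hs₁⟩ : (X.filter (fun s' => τ s' y < τ s y)).Nonempty := by
      rw [← Finset.card_pos]
      rw [hrk] at hr
      exact Nat.pos_of_ne_zero hr
    obtain ⟨hs₁X, hs₁τ⟩ := Finset.mem_filter.1 hs₁
    have hsty : τ (st y) y < τ s y := lt_of_le_of_lt (hstmin y s₁ hs₁X) hs₁τ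
    set R := X.filter (fun s' => (mom (2 * j + 2) s', mom e y) ∈ S (τ s y)) with hR
    have hRc : rk s y ≤ R.card := by
      apply Finset.card_le_card
      intro s' hs'
      obtain ⟨h1, h2⟩ := Finset.mem_filter.1 hs'
      exact Finset.mem_filter.2 ⟨h1, hin s hs y hy s' h1 y hy h2⟩
    have h1 : Nat.choose ((rk s y - 4) / 2) j ≤ Nat.choose ((R.card - 4) / 2) j :=
      Nat.choose_le_choose _ (by omega)
    refine (Nat.mul_le_mul_right _ h1).trans ?_
    rw [← hFc]
    refine insertion hj he hW hG (hSV s hs y hy) hy (hnot s hs y hy) ?_ ?_ ?_ ?_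
    · simp only [hEx] at hE
      push Not at hE
      obtain ⟨y₁, hy₁, h2⟩ := hE
      exact ⟨y₁, hin s hs y hy s hs y₁ hy₁ h2⟩
    · intro s'
      rw [hR, Finset.mem_filter]
      constructor
      · exact fun h => h.2
      · intro h
        refine ⟨?_, h⟩
        obtain ⟨⟨s'', hs'', h2⟩, _⟩ := hSV s hs y hy h
        rw [← hmd h2]
        exact hs''
    · intro t ht
      refine ⟨fun h => hyF (h ▸ ht), st t, ?_⟩
      apply hin s hs y hy _ (hstX t) _ (hFY ht)
      exact lt_of_le_of_lt (hF t ht y hy hyF) hsty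
    · rw [hFc]; exact hem₁
  -- summation
  set K := Nat.choose ((X.card - 4) / 2) j * Nat.choose m₁ i with hK
  have hstep' : ∀ y ∈ Y \ F, ∀ s ∈ X,
      Nat.choose ((rk s y - 4) / 2) j * Nat.choose m₁ i ≤
        Nat.choose e i * (Dest (S (τ s y)) (mom (2 * j + 2) s, mom e y)).ncard +
          (if Ex s y then K else 0) := by
    intro y hy s hs
    by_cases hE : Ex s y
    · rw [if_pos hE]
      refine le_trans ?_ (Nat.le_add_left _ _)
      rw [hK]
      apply Nat.mul_le_mul_right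
      apply Nat.choose_le_choose
      have h1 : rk s y ≤ X.card := Finset.card_filter_le _ _
      omega
    · rw [if_neg hE, add_zero]
      exact hstep y hy s hs hE
  have hExsum : ∑ y ∈ Y, ∑ s ∈ X, (if Ex s y then K else 0) ≤ X.card * K := by
    rw [Finset.sum_comm]
    calc ∑ s ∈ X, ∑ y ∈ Y, (if Ex s y then K else 0) ≤ ∑ s ∈ X, K := by
          refine Finset.sum_le_sum fun s hs => ?_
          rw [← Finset.sum_filter, Finset.sum_const, smul_eq_mul]
          have h1 : (Y.filter fun y => Ex s y).card ≤ 1 := by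
            rw [Finset.card_le_one]
            intro y hy y' hy'
            obtain ⟨hy1, hy2⟩ := Finset.mem_filter.1 hy
            obtain ⟨hy1', hy2'⟩ := Finset.mem_filter.1 hy'
            have h2 := hy2 y' hy1'
            have h3 := hy2' y hy1
            exact (hinj s hs y hy1 s hs y' hy1' (by omega)).2
          calc _ ≤ 1 * K := Nat.mul_le_mul_right _ h1
            _ = K := one_mul K
      _ = X.card * K := by rw [Finset.sum_const, smul_eq_mul]
  calc (Y.card - m₁) * (∑ r ∈ Finset.range X.card, Nat.choose ((r - 4) / 2) j) * Nat.choose m₁ i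
      = ∑ y ∈ Y \ F, (∑ r ∈ Finset.range X.card, Nat.choose ((r - 4) / 2) j) *
          Nat.choose m₁ i := by
        rw [Finset.sum_const, Finset.card_sdiff_of_subset hFY, hFc, smul_eq_mul, mul_assoc]
    _ = ∑ y ∈ Y \ F, ∑ s ∈ X, Nat.choose ((rk s y - 4) / 2) j * Nat.choose m₁ i := by
        refine Finset.sum_congr rfl fun y hy => ?_
        rw [← Finset.sum_mul, hrksum y (Finset.mem_sdiff.1 hy).1]
    _ ≤ ∑ y ∈ Y \ F, ∑ s ∈ X,
          (Nat.choose e i * (Dest (S (τ s y)) (mom (2 * j + 2) s, mom e y)).ncard +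
            (if Ex s y then K else 0)) :=
        Finset.sum_le_sum fun y hy => Finset.sum_le_sum fun s hs => hstep' y hy s hs
    _ ≤ ∑ y ∈ Y, ∑ s ∈ X,
          (Nat.choose e i * (Dest (S (τ s y)) (mom (2 * j + 2) s, mom e y)).ncard +
            (if Ex s y then K else 0)) :=
        Finset.sum_le_sum_of_subset Finset.sdiff_subset
    _ = Nat.choose e i * (∑ y ∈ Y, ∑ s ∈ X,
          (Dest (S (τ s y)) (mom (2 * j + 2) s, mom e y)).ncard) +
          ∑ y ∈ Y, ∑ s ∈ X, (if Ex s y then K else 0) := by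
        rw [Finset.mul_sum, ← Finset.sum_add_distrib]
        refine Finset.sum_congr rfl fun y _ => ?_
        rw [Finset.mul_sum, ← Finset.sum_add_distrib]
    _ ≤ _ := Nat.add_le_add_left hExsum _

/-- the lower bound for a sequence of subsets, in coordinates -/
theorem created_lower {j e i : ℕ} (hj : 1 ≤ j) (he : 2 * i + 2 ≤ e) (X Y : Finset ℝ)
    {W : Set ℝ} (hW : ∀ T ⊆ X, ∀ s ∈ X, (rootPoly T).eval s ∈ W ∧ -(rootPoly T).eval s ∈ W)
    (hG : Generic e W Y) {m₁ : ℕ} (hem₁ : e ≤ m₁) (hm₁ : m₁ ≤ Y.card) (N : ℕ)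
    (S : ℕ → Set ((Fin (2 * j + 2) → ℝ) × (Fin e → ℝ))) (h0 : S 0 = ∅)
    (hN : S N = (mom (2 * j + 2) '' (X : Set ℝ)) ×ˢ (mom e '' (Y : Set ℝ)))
    (hsub : ∀ t ≤ N, S t ⊆ (mom (2 * j + 2) '' (X : Set ℝ)) ×ˢ (mom e '' (Y : Set ℝ)))
    (hstep : ∀ t < N, S (t + 1) ⊆ S t ∨ ∃ p, S (t + 1) = insert p (S t)) :
    (Y.card - m₁) * (∑ r ∈ Finset.range X.card, Nat.choose ((r - 4) / 2) j) * Nat.choose m₁ i ≤
      Nat.choose e i * created N S +
        X.card * (Nat.choose ((X.card - 4) / 2) j * Nat.choose m₁ i) := by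
  classical
  have hme : Function.Injective (mom e) := mom_injective (by omega)
  have hmd : Function.Injective (mom (2 * j + 2)) := mom_injective (by omega)
  set τ : ℝ → ℝ → ℕ := fun s y =>
    Nat.findGreatest (fun t => (mom (2 * j + 2) s, mom e y) ∉ S t) N with hτ
  have hnot : ∀ s y, (mom (2 * j + 2) s, mom e y) ∉ S (τ s y) := by
    intro s y
    have h1 : (fun t => (mom (2 * j + 2) s, mom e y) ∉ S t) 0 := by
      change (mom (2 * j + 2) s, mom e y) ∉ S 0
      rw [h0]
      exact Set.notMem_empty _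
    exact Nat.findGreatest_spec (P := fun t => (mom (2 * j + 2) s, mom e y) ∉ S t)
      (Nat.zero_le N) h1
  have hleN : ∀ s y, τ s y ≤ N := fun s y => Nat.findGreatest_le N
  have hafter : ∀ s y t, τ s y < t → t ≤ N → (mom (2 * j + 2) s, mom e y) ∈ S t := by
    intro s y t h1 h2
    have h3 := Nat.findGreatest_is_greatest h1 h2
    exact not_not.1 h3
  have hltN : ∀ s ∈ X, ∀ y ∈ Y, τ s y < N := by
    intro s hs y hy
    refine lt_of_le_of_ne (hleN s y) fun h => ?_
    have h1 := hnot s y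
    rw [h, hN] at h1
    exact h1 ⟨⟨s, hs, rfl⟩, ⟨y, hy, rfl⟩⟩
  have hins : ∀ s ∈ X, ∀ y ∈ Y,
      S (τ s y + 1) = insert (mom (2 * j + 2) s, mom e y) (S (τ s y)) := by
    intro s hs y hy
    have h1 := hltN s hs y hy
    have h2 := hafter s y (τ s y + 1) (Nat.lt_succ_self _) h1
    rcases hstep (τ s y) h1 with h3 | ⟨p, h3⟩
    · exact absurd (h3 h2) (hnot s y)
    · rw [h3] at h2
      rcases Set.mem_insert_iff.1 h2 with h4 | h4
      · rw [h3, h4]
      · exact absurd h4 (hnot s y)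
  have hinj : ∀ s ∈ X, ∀ y ∈ Y, ∀ s' ∈ X, ∀ y' ∈ Y, τ s y = τ s' y' → s = s' ∧ y = y' := by
    intro s hs y hy s' hs' y' hy' h
    have h1 := hins s hs y hy
    have h2 := hafter s' y' (τ s' y' + 1) (Nat.lt_succ_self _) (hltN s' hs' y' hy')
    rw [← h, h1] at h2
    rcases Set.mem_insert_iff.1 h2 with h4 | h4
    · exact ⟨(hmd (Prod.ext_iff.1 h4).1).symm, (hme (Prod.ext_iff.1 h4).2).symm⟩
    · rw [h] at h4
      exact absurd h4 (hnot s' y')
  have hmain := dest_sum_lower hj he X Y hW hG hem₁ hm₁ S τ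
    (fun s hs y hy => hsub _ (hleN s y)) (fun s _ y _ => hnot s y)
    (fun s hs y hy s' hs' y' hy' h => hafter s' y' _ h (hleN s y)) hinj
  refine hmain.trans (Nat.add_le_add_right (Nat.mul_le_mul_left _ ?_) _)
  -- the sum over the points is at most the number of destroyed facet planes
  have hVfin : ((mom (2 * j + 2) '' (X : Set ℝ)) ×ˢ (mom e '' (Y : Set ℝ))).Finite :=
    (Set.toFinite _).prod (Set.toFinite _)
  have hSfin : ∀ t ≤ N, (S t).Finite := fun t ht => hVfin.subset (hsub t ht)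
  have h1 := destroyed_le_created S h0 N hSfin
  have h2 : ∑ y ∈ Y, ∑ s ∈ X, (Dest (S (τ s y)) (mom (2 * j + 2) s, mom e y)).ncard ≤
      ∑ t ∈ Finset.range N, (Facets (S t) \ Facets (S (t + 1))).ncard := by
    calc ∑ y ∈ Y, ∑ s ∈ X, (Dest (S (τ s y)) (mom (2 * j + 2) s, mom e y)).ncard
        ≤ ∑ y ∈ Y, ∑ s ∈ X, (Facets (S (τ s y)) \ Facets (S (τ s y + 1))).ncard := by
          refine Finset.sum_le_sum fun y hy => Finset.sum_le_sum fun s hs => ?_
          have hf := facets_finite (hSfin _ (hleN s y))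
          refine Set.ncard_le_ncard ?_ (hf.subset Set.diff_subset)
          intro H hH
          refine ⟨dest_subset hH, fun hcon => ?_⟩
          rw [hins s hs y hy] at hcon
          exact dest_not_facet (Set.subset_insert _ _) (Set.mem_insert _ _) hH hcon.1
      _ = ∑ p ∈ Y ×ˢ X, (Facets (S (τ p.2 p.1)) \ Facets (S (τ p.2 p.1 + 1))).ncard := by
          rw [Finset.sum_product]
      _ = ∑ t ∈ (Y ×ˢ X).image (fun p => τ p.2 p.1),
            (Facets (S t) \ Facets (S (t + 1))).ncard := by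
          rw [Finset.sum_image]
          intro p hp p' hp' h
          obtain ⟨h3, h4⟩ := Finset.mem_product.1 (Finset.mem_coe.1 hp)
          obtain ⟨h5, h6⟩ := Finset.mem_product.1 (Finset.mem_coe.1 hp')
          obtain ⟨h7, h8⟩ := hinj p.2 h4 p.1 h3 p'.2 h6 p'.1 h5 h
          exact Prod.ext h8 h7
      _ ≤ _ := by
          apply Finset.sum_le_sum_of_subset
          intro t ht
          obtain ⟨p, hp, rfl⟩ := Finset.mem_image.1 ht
          obtain ⟨h3, h4⟩ := Finset.mem_product.1 hp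
          exact Finset.mem_range.2 (hltN p.2 h4 p.1 h3)
  omega

end Pool.Agent.IncHull
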