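import Pool.Agent.Work.MP_dfcec9_lc.Defs

/-!
A set of `x` points on the moment curve in `ℝ^D` has at most `2 * choose x (D / 2)` facet planes.
-/

namespace Pool.Agent.IncHull

open Polynomial

/-- number of elements above `y` -/
noncomputable def above (Z : Finset ℝ) (y : ℝ) : ℕ := (Z.filter (fun τ => y < τ)).card

/-- number of elements below `y` -/
noncomputable def below (Z : Finset ℝ) (y : ℝ) : ℕ := (Z.filter (fun τ => τ < y)).card

theorem above_add_below {Z : Finset ℝ} {y : ℝ} (hy : y ∉ Z) : above Z y + below Z y = Z.card := by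
  classical
  rw [above, below, ← Finset.card_union_of_disjoint]
  · congr 1
    ext τ
    simp only [Finset.mem_union, Finset.mem_filter]
    constructor
    · rintro (h | h) <;> exact h.1
    · intro h
      rcases lt_trichotomy y τ with h1 | h1 | h1
      · exact Or.inl ⟨h, h1⟩
      · exact absurd (h1 ▸ h) hy
      · exact Or.inr ⟨h, h1⟩
  · rw [Finset.disjoint_filter]
    intro τ _ h1 h2
    exact lt_asymm h1 h2

theorem above_add_below' {Z : Finset ℝ} {y : ℝ} (hy : y ∈ Z) :
    above Z y + below Z y + 1 = Z.card := by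
  classical
  have h1 : y ∉ Z.erase y := by simp
  have h2 := above_add_below h1
  have h3 : above (Z.erase y) y = above Z y := by
    rw [above, above]
    congr 1
    ext τ
    simp only [Finset.mem_filter, Finset.mem_erase]
    constructor
    · rintro ⟨⟨_, h⟩, h'⟩; exact ⟨h, h'⟩
    · rintro ⟨h, h'⟩; exact ⟨⟨ne_of_gt h', h⟩, h'⟩
  have h4 : below (Z.erase y) y = below Z y := by
    rw [below, below]
    congr 1
    ext τ
    simp only [Finset.mem_filter, Finset.mem_erase]
    constructor
    · rintro ⟨⟨_, h⟩, h'⟩; exact ⟨h, h'⟩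
    · rintro ⟨h, h'⟩; exact ⟨⟨ne_of_lt h', h⟩, h'⟩
  rw [h3, h4, Finset.card_erase_of_mem hy] at h2
  have : 0 < Z.card := Finset.card_pos.2 ⟨y, hy⟩
  omega

theorem sign_rootPoly {Z : Finset ℝ} {y : ℝ} (hy : y ∉ Z) :
    0 < (-1 : ℝ) ^ (above Z y) * (rootPoly Z).eval y := by
  classical
  have h1 : (-1 : ℝ) ^ (above Z y) = ∏ τ ∈ Z, (if y < τ then (-1 : ℝ) else 1) := by
    rw [Finset.prod_ite, Finset.prod_const, Finset.prod_const_one, mul_one, above]
  rw [h1, rootPoly_eval, ← Finset.prod_mul_distrib]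
  refine Finset.prod_pos fun τ hτ => ?_
  split_ifs with h
  · linarith
  · have : τ < y := lt_of_le_of_ne (not_lt.1 h) (fun h' => hy (h' ▸ hτ))
    linarith

/-- the odd elements -/
noncomputable def oddPart (Z : Finset ℝ) : Finset ℝ := Z.filter (fun τ => above Z τ % 2 = 1)

theorem card_oddPart (Z : Finset ℝ) : (oddPart Z).card = Z.card / 2 := by
  classical
  have hinj : Set.InjOn (above Z) Z := by
    have key : ∀ a ∈ Z, ∀ b ∈ Z, a < b → above Z b < above Z a := by
      intro a ha b hb hab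
      refine Finset.card_lt_card ?_
      refine ⟨?_, ?_⟩
      · intro τ hτ
        simp only [Finset.mem_filter] at hτ ⊢
        exact ⟨hτ.1, hab.trans hτ.2⟩
      · intro hsub
        have : b ∈ Z.filter (fun τ => b < τ) := hsub (by simp [hb, hab])
        simp at this
    intro a ha b hb hab
    rcases lt_trichotomy a b with h | h | h
    · exact absurd hab (ne_of_gt (key a ha b hb h))
    · exact h
    · exact absurd hab (ne_of_lt (key b hb a ha h))
  have himg : Z.image (above Z) = Finset.range Z.card := by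
    apply Finset.eq_of_subset_of_card_le
    · intro n hn
      obtain ⟨a, ha, rfl⟩ := Finset.mem_image.1 hn
      have := above_add_below' ha
      simp only [Finset.mem_range]
      omega
    · rw [Finset.card_image_of_injOn hinj, Finset.card_range]
  have h1 : (oddPart Z).image (above Z) = (Finset.range Z.card).filter (fun n => n % 2 = 1) := by
    rw [← himg, oddPart, Finset.filter_image]
  have h2 : (oddPart Z).card = ((oddPart Z).image (above Z)).card := by
    rw [Finset.card_image_of_injOn]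
    exact hinj.mono (by intro a ha; exact (Finset.mem_filter.1 ha).1)
  rw [h2, h1]
  have h3 : ∀ n : ℕ, ((Finset.range n).filter (fun n => n % 2 = 1)).card = n / 2 := by
    intro n
    induction n with
    | zero => simp
    | succ n ih =>
      rw [Finset.range_add_one, Finset.filter_insert]
      split_ifs with h
      · rw [Finset.card_insert_of_notMem (by simp), ih]
        omega
      · rw [ih]; omega
  exact h3 _

/-- injectivity of the odd part, parity class 1 -/
theorem oddPart_inj_one {X Z Z' : Finset ℝ} (hZ : Z ⊆ X) (hZ' : Z' ⊆ X)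
    (h1 : ∀ y ∈ X, y ∉ Z → above Z y % 2 = 1) (h2 : ∀ y ∈ X, y ∉ Z' → above Z' y % 2 = 1)
    (h : oddPart Z = oddPart Z') : Z = Z' := by
  classical
  by_contra hne
  have hD : (symmDiff Z Z').Nonempty := by
    rw [Finset.nonempty_iff_ne_empty]
    intro h0
    exact hne (symmDiff_eq_bot.1 (by simpa using h0))
  obtain ⟨τ, hτ, hmax⟩ := Finset.exists_max_image (symmDiff Z Z') id hD
  have hag : ∀ σ, τ < σ → (σ ∈ Z ↔ σ ∈ Z') := by
    intro σ hσ
    by_contra hcon
    have : σ ∈ symmDiff Z Z' := by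
      rw [Finset.mem_symmDiff]
      tauto
    exact absurd (hmax σ this) (not_le.2 hσ)
  have hN : above Z τ = above Z' τ := by
    rw [above, above]
    congr 1
    ext σ
    simp only [Finset.mem_filter]
    constructor
    · rintro ⟨ha, hb⟩; exact ⟨(hag σ hb).1 ha, hb⟩
    · rintro ⟨ha, hb⟩; exact ⟨(hag σ hb).2 ha, hb⟩
  rcases Finset.mem_symmDiff.1 hτ with ⟨ha, hb⟩ | ⟨ha, hb⟩
  · have h3 := h2 τ (hZ ha) hb
    have : τ ∈ oddPart Z := Finset.mem_filter.2 ⟨ha, by rw [hN]; exact h3⟩
    rw [h] at this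
    exact hb (Finset.mem_filter.1 this).1
  · have h3 := h1 τ (hZ' ha) hb
    have : τ ∈ oddPart Z' := Finset.mem_filter.2 ⟨ha, by rw [← hN]; exact h3⟩
    rw [← h] at this
    exact hb (Finset.mem_filter.1 this).1

/-- injectivity of the odd part, parity class 0 -/
theorem oddPart_inj_zero {X Z Z' : Finset ℝ} (hZ : Z ⊆ X) (hZ' : Z' ⊆ X) (hc : Z.card = Z'.card)
    (h1 : ∀ y ∈ X, y ∉ Z → above Z y % 2 = 0) (h2 : ∀ y ∈ X, y ∉ Z' → above Z' y % 2 = 0)
    (h : oddPart Z = oddPart Z') : Z = Z' := by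
  classical
  by_contra hne
  have hD : (symmDiff Z Z').Nonempty := by
    rw [Finset.nonempty_iff_ne_empty]
    intro h0
    exact hne (symmDiff_eq_bot.1 (by simpa using h0))
  obtain ⟨τ, hτ, hmin⟩ := Finset.exists_min_image (symmDiff Z Z') id hD
  have hag : ∀ σ, σ < τ → (σ ∈ Z ↔ σ ∈ Z') := by
    intro σ hσ
    by_contra hcon
    have : σ ∈ symmDiff Z Z' := by
      rw [Finset.mem_symmDiff]
      tauto
    exact absurd (hmin σ this) (not_le.2 hσ)
  have hN : below Z τ = below Z' τ := by
    rw [below, below]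
    congr 1
    ext σ
    simp only [Finset.mem_filter]
    constructor
    · rintro ⟨ha, hb⟩; exact ⟨(hag σ hb).1 ha, hb⟩
    · rintro ⟨ha, hb⟩; exact ⟨(hag σ hb).2 ha, hb⟩
  rcases Finset.mem_symmDiff.1 hτ with ⟨ha, hb⟩ | ⟨ha, hb⟩
  · have h3 := h2 τ (hZ ha) hb
    have h4 := above_add_below' ha
    have h5 := above_add_below hb
    have : τ ∈ oddPart Z := Finset.mem_filter.2 ⟨ha, by omega⟩
    rw [h] at this
    exact hb (Finset.mem_filter.1 this).1
  · have h3 := h1 τ (hZ' ha) hb
    have h4 := above_add_below' ha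
    have h5 := above_add_below hb
    have : τ ∈ oddPart Z' := Finset.mem_filter.2 ⟨ha, by omega⟩
    rw [← h] at this
    exact hb (Finset.mem_filter.1 this).1

/-- the zero set of a facet plane of points on the moment curve -/
theorem exists_Z {D : ℕ} {X : Finset ℝ} {H : Set (Fin D → ℝ)}
    (h : FacetPlane (mom D '' (X : Set ℝ)) H) :
    ∃ Z ⊆ X, Z.card = D ∧ H = (affineSpan ℝ (mom D '' (Z : Set ℝ)) : Set (Fin D → ℝ)) ∧
      ((∀ y ∈ X, y ∉ Z → above Z y % 2 = 1) ∨ (∀ y ∈ X, y ∉ Z → above Z y % 2 = 0)) := by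
  classical
  obtain ⟨g, t, hg, hH, hle, hsp⟩ := h
  set Z := X.filter (fun s => g (mom D s) = t) with hZ
  have hint : mom D '' (X : Set ℝ) ∩ H = mom D '' (Z : Set ℝ) := by
    ext p
    simp only [Set.mem_inter_iff, Set.mem_image, Finset.mem_coe, hZ, Finset.mem_filter, hH,
      Set.mem_setOf_eq]
    constructor
    · rintro ⟨⟨s, hs, rfl⟩, h2⟩; exact ⟨s, ⟨hs, h2⟩, rfl⟩
    · rintro ⟨s, ⟨hs, h2⟩, rfl⟩; exact ⟨⟨s, hs, rfl⟩, h2⟩
  rw [hint] at hsp
  have hHne : H.Nonempty := by
    obtain ⟨w, hw⟩ : ∃ w, g w ≠ 0 := by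
      by_contra hcon
      push Not at hcon
      exact hg (LinearMap.ext hcon)
    refine ⟨(t / g w) • w, ?_⟩
    rw [hH, Set.mem_setOf_eq, map_smul, smul_eq_mul, div_mul_cancel₀ _ hw]
  have hHeq : H = (affineSpan ℝ (mom D '' (Z : Set ℝ)) : Set (Fin D → ℝ)) := by
    apply Set.Subset.antisymm hsp
    obtain ⟨z₀, hz₀⟩ := hHne
    have hker : ∀ p ∈ affineSpan ℝ (mom D '' (Z : Set ℝ)), p ∈ H := by
      let A : AffineSubspace ℝ (Fin D → ℝ) := AffineSubspace.mk' z₀ (LinearMap.ker g)
      have hA : affineSpan ℝ (mom D '' (Z : Set ℝ)) ≤ A := by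
        rw [affineSpan_le]
        rintro _ ⟨s, hs, rfl⟩
        have h1 : g (mom D s) = t := (Finset.mem_filter.1 hs).2
        rw [hH, Set.mem_setOf_eq] at hz₀
        rw [SetLike.mem_coe, AffineSubspace.mem_mk', LinearMap.mem_ker, vsub_eq_sub, map_sub, h1,
          hz₀, sub_self]
      intro p hp
      have h2 := hA hp
      rw [AffineSubspace.mem_mk', LinearMap.mem_ker, vsub_eq_sub, map_sub] at h2
      rw [hH, Set.mem_setOf_eq] at hz₀ ⊢
      linarith
    exact hker
  have hZle : Z.card ≤ D := by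
    by_contra hcon
    push Not at hcon
    exact hg (eq_zero_of_const hcon (c := t) fun s hs => (Finset.mem_filter.1 hs).2)
  have hZge : D ≤ Z.card := by
    obtain ⟨z₀, hz₀⟩ := hHne
    have hz₁ := hsp hz₀
    have hne : (mom D '' (Z : Set ℝ)).Nonempty := by
      rw [← affineSpan_nonempty ℝ]; exact ⟨z₀, hz₁⟩
    have hZpos : 0 < Z.card := by
      rw [Finset.card_pos]
      obtain ⟨_, s, hs, _⟩ := hne
      exact ⟨s, hs⟩
    have h1 : LinearMap.ker g ≤ vectorSpan ℝ (mom D '' (Z : Set ℝ)) := by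
      intro u hu
      have h3 : u + z₀ ∈ H := by
        rw [hH, Set.mem_setOf_eq] at hz₀ ⊢
        rw [map_add, LinearMap.mem_ker.1 hu, hz₀, zero_add]
      have h4 := AffineSubspace.vsub_mem_direction (hsp h3) hz₁
      rw [direction_affineSpan] at h4
      simpa using h4
    have h2 : Module.finrank ℝ (LinearMap.ker g) + 1 = Module.finrank ℝ (Fin D → ℝ) :=
      Module.Dual.finrank_ker_add_one_of_ne_zero hg
    have h3 := Submodule.finrank_mono h1
    have h4 : Module.finrank ℝ (vectorSpan ℝ (Z.image (mom D) : Set (Fin D → ℝ))) ≤ Z.card - 1 :=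
      finrank_vectorSpan_image_finset_le ℝ (mom D) Z (n := Z.card - 1) (by omega)
    rw [Finset.coe_image] at h4
    rw [Module.finrank_fin_fun] at h2
    omega
  have hZcard : Z.card = D := le_antisymm hZle hZge
  refine ⟨Z, Finset.filter_subset _ _, hZcard, hHeq, ?_⟩
  set a : ℝ := (polyOf g).coeff D with ha
  have hr : polyOf g - C t - C a * rootPoly Z = 0 := by
    by_cases hD : D = 0
    · subst hD
      exfalso
      apply hg
      ext j
      exact j.elim0
    have hcoef : (polyOf g - C t - C a * rootPoly Z).coeff D = 0 := by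
      have h2 : (rootPoly Z).coeff D = 1 := by
        have := (rootPoly_monic Z).coeff_natDegree
        rwa [rootPoly_natDegree, hZcard] at this
      rw [coeff_sub, coeff_sub, coeff_C_mul, h2, coeff_C, if_neg hD]
      simp [ha]
    have hdeg : (polyOf g - C t - C a * rootPoly Z).natDegree ≤ D := by
      refine (natDegree_sub_le _ _).trans (max_le ?_ ?_)
      · exact (natDegree_sub_C).le.trans (natDegree_polyOf g)
      · refine (natDegree_C_mul_le _ _).trans ?_
        rw [rootPoly_natDegree, hZcard]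
    have hlt : (polyOf g - C t - C a * rootPoly Z).natDegree < Z.card := by
      rw [hZcard]
      by_contra hge
      have hEq : (polyOf g - C t - C a * rootPoly Z).natDegree = D := by omega
      have : (polyOf g - C t - C a * rootPoly Z) = 0 := by
        rw [← leadingCoeff_eq_zero, leadingCoeff, hEq]
        exact hcoef
      rw [this] at hEq
      simp at hEq
      omega
    refine eq_zero_of_natDegree_lt_card_of_eval_eq_zero' _ Z ?_ hlt
    intro s hs
    rw [eval_sub, eval_sub, eval_polyOf, eval_C, (Finset.mem_filter.1 hs).2, eval_mul,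
      (rootPoly_eval_eq_zero Z s).2 hs]
    simp
  have hval : ∀ y, g (mom D y) = t + a * (rootPoly Z).eval y := by
    intro y
    have := congrArg (eval y) hr
    rw [eval_sub, eval_sub, eval_polyOf, eval_C, eval_mul, eval_C, eval_zero] at this
    linarith
  have hneg : ∀ y ∈ X, y ∉ Z → a * (rootPoly Z).eval y < 0 := by
    intro y hy hyZ
    have h1 : g (mom D y) ≤ t := hle _ (Set.mem_image_of_mem _ hy)
    have h2 : g (mom D y) ≠ t := fun h => hyZ (Finset.mem_filter.2 ⟨hy, h⟩)
    have h3 := hval y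
    have : g (mom D y) < t := lt_of_le_of_ne h1 h2
    linarith
  rcases le_or_gt 0 a with ha0 | ha0
  · left
    intro y hy hyZ
    by_contra hcon
    have hev : Even (above Z y) := by rw [Nat.even_iff]; omega
    have h1 := sign_rootPoly hyZ
    rw [hev.neg_one_pow, one_mul] at h1
    have h2 := hneg y hy hyZ
    exact absurd h2 (not_lt.2 (mul_nonneg ha0 h1.le))
  · right
    intro y hy hyZ
    by_contra hcon
    have hod : Odd (above Z y) := by rw [Nat.odd_iff]; omega
    have h1 := sign_rootPoly hyZ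
    rw [hod.neg_one_pow] at h1
    have h2 := hneg y hy hyZ
    have h3 : 0 ≤ a * (rootPoly Z).eval y :=
      mul_nonneg_of_nonpos_of_nonpos ha0.le (by linarith)
    exact absurd h2 (not_lt.2 h3)

/-- at most `2 * choose x (D / 2)` facet planes -/
theorem mom_facets (D : ℕ) (X : Finset ℝ) :
    {H | FacetPlane (mom D '' (X : Set ℝ)) H}.Finite ∧
      {H | FacetPlane (mom D '' (X : Set ℝ)) H}.ncard ≤ 2 * Nat.choose X.card (D / 2) := by
  classical
  set W : ℕ → Finset (Finset ℝ) := fun i =>
    (X.powersetCard D).filter (fun Z => ∀ y ∈ X, y ∉ Z → above Z y % 2 = i) with hW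
  have hWc : ∀ i, (Set.InjOn oddPart (W i : Set (Finset ℝ))) →
      (W i).card ≤ Nat.choose X.card (D / 2) := by
    intro i hi
    rw [← Finset.card_powersetCard (D / 2) X]
    refine Finset.card_le_card_of_injOn oddPart ?_ hi
    intro Z hZ
    have hZ' := Finset.mem_filter.1 (Finset.mem_coe.1 hZ)
    have hZ'' := Finset.mem_powersetCard.1 hZ'.1
    rw [Finset.mem_coe, Finset.mem_powersetCard, card_oddPart, hZ''.2]
    exact ⟨(Finset.filter_subset _ _).trans hZ''.1, rfl⟩
  have h1 : (W 1).card ≤ Nat.choose X.card (D / 2) := by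
    refine hWc 1 ?_
    intro Z hZ Z' hZ' h
    have hZ2 := Finset.mem_filter.1 (Finset.mem_coe.1 hZ)
    have hZ'2 := Finset.mem_filter.1 (Finset.mem_coe.1 hZ')
    exact oddPart_inj_one (Finset.mem_powersetCard.1 hZ2.1).1
      (Finset.mem_powersetCard.1 hZ'2.1).1 hZ2.2 hZ'2.2 h
  have h0 : (W 0).card ≤ Nat.choose X.card (D / 2) := by
    refine hWc 0 ?_
    intro Z hZ Z' hZ' h
    have hZ2 := Finset.mem_filter.1 (Finset.mem_coe.1 hZ)
    have hZ'2 := Finset.mem_filter.1 (Finset.mem_coe.1 hZ')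
    refine oddPart_inj_zero (Finset.mem_powersetCard.1 hZ2.1).1
      (Finset.mem_powersetCard.1 hZ'2.1).1 ?_ hZ2.2 hZ'2.2 h
    rw [(Finset.mem_powersetCard.1 hZ2.1).2, (Finset.mem_powersetCard.1 hZ'2.1).2]
  set f : Finset ℝ → Set (Fin D → ℝ) := fun Z =>
    (affineSpan ℝ (mom D '' (Z : Set ℝ)) : Set (Fin D → ℝ)) with hf
  have hsub : {H | FacetPlane (mom D '' (X : Set ℝ)) H} ⊆
      (((W 1 ∪ W 0).image f : Finset (Set (Fin D → ℝ))) : Set (Set (Fin D → ℝ))) := by
    intro H hH
    obtain ⟨Z, hZX, hZc, hHZ, hpar⟩ := exists_Z hH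
    rw [Finset.mem_coe, Finset.mem_image]
    refine ⟨Z, ?_, hHZ.symm⟩
    rw [Finset.mem_union]
    rcases hpar with hp | hp
    · left
      exact Finset.mem_filter.2 ⟨Finset.mem_powersetCard.2 ⟨hZX, hZc⟩, hp⟩
    · right
      exact Finset.mem_filter.2 ⟨Finset.mem_powersetCard.2 ⟨hZX, hZc⟩, hp⟩
  refine ⟨(Finset.finite_toSet _).subset hsub, ?_⟩
  calc _ ≤ (((W 1 ∪ W 0).image f : Finset (Set (Fin D → ℝ))) : Set (Set (Fin D → ℝ))).ncard :=
        Set.ncard_le_ncard hsub (Finset.finite_toSet _)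
    _ = ((W 1 ∪ W 0).image f).card := Set.ncard_coe_finset _
    _ ≤ (W 1 ∪ W 0).card := Finset.card_image_le
    _ ≤ (W 1).card + (W 0).card := Finset.card_union_le _ _
    _ ≤ _ := by omega

end Pool.Agent.IncHull
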