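import Pool.Agent.Work.MP_dfcec9_lc.Order
import Pool.Agent.Work.MP_dfcec9_lc.Upper

/-!
Facet planes of a product, convex position, and change of coordinates.
-/

namespace Pool.Agent.IncHull

theorem exists_ne {E : Type*} [AddCommGroup E] [Module ℝ E] {g : E →ₗ[ℝ] ℝ} (hg : g ≠ 0) :
    ∃ w, g w = 1 := by
  obtain ⟨w, hw⟩ : ∃ w, g w ≠ 0 := by
    by_contra hcon
    push Not at hcon
    exact hg (LinearMap.ext hcon)
  exact ⟨(g w)⁻¹ • w, by rw [map_smul, smul_eq_mul, inv_mul_cancel₀ hw]⟩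

/-- facet planes of a product -/
theorem facet_prod {E F : Type*} [AddCommGroup E] [Module ℝ E] [AddCommGroup F] [Module ℝ F]
    {A : Set E} {B : Set F} {H : Set (E × F)} (h : FacetPlane (A ×ˢ B) H) :
    (∃ H', FacetPlane A H' ∧ H = H' ×ˢ Set.univ) ∨ (∃ H', FacetPlane B H' ∧ H = Set.univ ×ˢ H') := by
  obtain ⟨g, t, hg, hH, hle, hsp⟩ := h
  obtain ⟨w, hw⟩ := exists_ne hg
  have hHne : t • w ∈ H := by
    rw [hH]
    change g (t • w) = t
    rw [map_smul, hw, smul_eq_mul, mul_one]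
  have hne : ((A ×ˢ B) ∩ H).Nonempty := by
    rw [← affineSpan_nonempty ℝ]; exact ⟨_, hsp hHne⟩
  obtain ⟨⟨a₀, b₀⟩, ⟨ha₀, hb₀⟩, hab⟩ := hne
  set φ : E →ₗ[ℝ] ℝ := g.comp (LinearMap.inl ℝ E F) with hφ
  set ψ : F →ₗ[ℝ] ℝ := g.comp (LinearMap.inr ℝ E F) with hψ
  have hgz : ∀ z : E × F, g z = φ z.1 + ψ z.2 := by
    intro z
    rw [hφ, hψ, LinearMap.comp_apply, LinearMap.comp_apply, ← map_add]
    congr 1
    simp
  have ht : t = φ a₀ + ψ b₀ := by
    rw [hH] at hab
    have : g (a₀, b₀) = t := hab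
    rw [← this, hgz]
  have hA : ∀ a ∈ A, φ a ≤ φ a₀ := by
    intro a ha
    have := hle (a, b₀) ⟨ha, hb₀⟩
    rw [hgz, ht] at this
    simpa using this
  have hB : ∀ b ∈ B, ψ b ≤ ψ b₀ := by
    intro b hb
    have := hle (a₀, b) ⟨ha₀, hb⟩
    rw [hgz, ht] at this
    simpa using this
  have hface : ∀ z ∈ (A ×ˢ B) ∩ H, φ z.1 = φ a₀ ∧ ψ z.2 = ψ b₀ := by
    rintro z ⟨⟨h1, h2⟩, h3⟩
    have h4 : φ z.1 + ψ z.2 = φ a₀ + ψ b₀ := by
      rw [← hgz, ← ht]
      rw [hH] at h3
      exact h3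
    have h5 := hA z.1 h1
    have h6 := hB z.2 h2
    constructor <;> linarith
  have hspan : ∀ z ∈ H, φ z.1 = φ a₀ ∧ ψ z.2 = ψ b₀ := by
    let K : Submodule ℝ (E × F) := LinearMap.ker (φ.comp (LinearMap.fst ℝ E F)) ⊓
      LinearMap.ker (ψ.comp (LinearMap.snd ℝ E F))
    have hle' : affineSpan ℝ ((A ×ˢ B) ∩ H) ≤ AffineSubspace.mk' (a₀, b₀) K := by
      rw [affineSpan_le]
      intro z hz
      obtain ⟨h1, h2⟩ := hface z hz
      rw [SetLike.mem_coe, AffineSubspace.mem_mk', vsub_eq_sub]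
      refine ⟨?_, ?_⟩
      · change φ (z - (a₀, b₀)).1 = 0
        rw [Prod.fst_sub, map_sub, h1, sub_self]
      · change ψ (z - (a₀, b₀)).2 = 0
        rw [Prod.snd_sub, map_sub, h2, sub_self]
    intro z hz
    have h1 := hle' (hsp hz)
    rw [AffineSubspace.mem_mk', vsub_eq_sub] at h1
    have h2 : φ (z - (a₀, b₀)).1 = 0 := h1.1
    have h3 : ψ (z - (a₀, b₀)).2 = 0 := h1.2
    rw [Prod.fst_sub, map_sub] at h2
    rw [Prod.snd_sub, map_sub] at h3
    constructor <;> linarith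
  have hcase : φ = 0 ∨ ψ = 0 := by
    by_contra hcon
    push Not at hcon
    obtain ⟨u, hu⟩ := exists_ne hcon.1
    obtain ⟨u', hu'⟩ := exists_ne hcon.2
    have h1 : (a₀ + u, b₀ - u') ∈ H := by
      rw [hH]
      change g (a₀ + u, b₀ - u') = t
      rw [hgz, ht]
      simp only [map_add, map_sub, hu, hu']
      ring
    have h2 := (hspan _ h1).1
    simp only [map_add, hu] at h2
    linarith
  rcases hcase with h0 | h0
  · right
    have hHeq : H = Set.univ ×ˢ {b | ψ b = ψ b₀} := by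
      ext z
      rw [hH]
      change g z = t ↔ (True ∧ ψ z.2 = ψ b₀)
      rw [hgz, ht, h0]
      simp
    refine ⟨{b | ψ b = ψ b₀}, ⟨ψ, ψ b₀, ?_, rfl, hB, ?_⟩, hHeq⟩
    · intro h1
      apply hg
      ext z
      · change φ _ = _
        rw [h0]; rfl
      · change ψ _ = _
        rw [h1]; rfl
    · intro b hb
      have h1 : (a₀, b) ∈ H := by
        rw [hHeq]
        exact ⟨trivial, hb⟩
      have h2 := hsp h1
      have h3 : (LinearMap.snd ℝ E F).toAffineMap (a₀, b) ∈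
          (affineSpan ℝ ((A ×ˢ B) ∩ H)).map (LinearMap.snd ℝ E F).toAffineMap :=
        AffineSubspace.mem_map_of_mem _ h2
      rw [AffineSubspace.map_span] at h3
      refine affineSpan_mono ℝ ?_ h3
      rintro _ ⟨z, hz, rfl⟩
      exact ⟨hz.1.2, (hface z hz).2⟩
  · left
    have hHeq : H = {a | φ a = φ a₀} ×ˢ Set.univ := by
      ext z
      rw [hH]
      change g z = t ↔ (φ z.1 = φ a₀ ∧ True)
      rw [hgz, ht, h0]
      simp
    refine ⟨{a | φ a = φ a₀}, ⟨φ, φ a₀, ?_, rfl, hA, ?_⟩, hHeq⟩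
    · intro h1
      apply hg
      ext z
      · change φ _ = _
        rw [h1]; rfl
      · change ψ _ = _
        rw [h0]; rfl
    · intro a ha
      have h1 : (a, b₀) ∈ H := by
        rw [hHeq]
        exact ⟨ha, trivial⟩
      have h2 := hsp h1
      have h3 : (LinearMap.fst ℝ E F).toAffineMap (a, b₀) ∈
          (affineSpan ℝ ((A ×ˢ B) ∩ H)).map (LinearMap.fst ℝ E F).toAffineMap :=
        AffineSubspace.mem_map_of_mem _ h2
      rw [AffineSubspace.map_span] at h3
      refine affineSpan_mono ℝ ?_ h3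
      rintro _ ⟨z, hz, rfl⟩
      exact ⟨hz.1.1, (hface z hz).1⟩

/-- number of facet planes of a product -/
theorem facet_prod_ncard {E F : Type*} [AddCommGroup E] [Module ℝ E] [AddCommGroup F] [Module ℝ F]
    {A : Set E} {B : Set F} (hA : A.Finite) (hB : B.Finite) :
    {H | FacetPlane (A ×ˢ B) H}.ncard ≤
      {H | FacetPlane A H}.ncard + {H | FacetPlane B H}.ncard := by
  classical
  have hfA := facetPlane_finite hA
  have hfB := facetPlane_finite hB
  have hsub : {H | FacetPlane (A ×ˢ B) H} ⊆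
      ((fun H' : Set E => (H' ×ˢ Set.univ : Set (E × F))) '' {H | FacetPlane A H}) ∪
      ((fun H' : Set F => (Set.univ ×ˢ H' : Set (E × F))) '' {H | FacetPlane B H}) := by
    intro H hH
    rcases facet_prod hH with ⟨H', h1, h2⟩ | ⟨H', h1, h2⟩
    · exact Or.inl ⟨H', h1, h2.symm⟩
    · exact Or.inr ⟨H', h1, h2.symm⟩
  calc _ ≤ _ := Set.ncard_le_ncard hsub ((hfA.image _).union (hfB.image _))
    _ ≤ _ := Set.ncard_union_le _ _
    _ ≤ _ := add_le_add (Set.ncard_image_le hfA) (Set.ncard_image_le hfB)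

/-- linear change of coordinates -/
theorem facetPlane_image {E E' : Type*} [AddCommGroup E] [Module ℝ E] [AddCommGroup E']
    [Module ℝ E'] (L : E ≃ₗ[ℝ] E') {S H : Set E} (h : FacetPlane S H) :
    FacetPlane (L '' S) (L '' H) := by
  obtain ⟨g, t, hg, hH, hle, hsp⟩ := h
  refine ⟨g.comp (L.symm : E' →ₗ[ℝ] E), t, ?_, ?_, ?_, ?_⟩
  · intro h0
    apply hg
    ext z
    have := LinearMap.congr_fun h0 (L z)
    simpa using this
  · ext z
    rw [hH]
    constructor
    · rintro ⟨y, hy, rfl⟩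
      change g (L.symm (L y)) = t
      rw [L.symm_apply_apply]
      exact hy
    · intro hz
      exact ⟨L.symm z, hz, L.apply_symm_apply z⟩
  · rintro _ ⟨z, hz, rfl⟩
    change g (L.symm (L z)) ≤ t
    rw [L.symm_apply_apply]
    exact hle z hz
  · rintro _ ⟨z, hz, rfl⟩
    have h1 := hsp hz
    have h2 : (L : E →ₗ[ℝ] E').toAffineMap z ∈
        (affineSpan ℝ (S ∩ H)).map (L : E →ₗ[ℝ] E').toAffineMap :=
      AffineSubspace.mem_map_of_mem _ h1
    rw [AffineSubspace.map_span] at h2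
    have h3 : (L : E →ₗ[ℝ] E').toAffineMap '' (S ∩ H) = L '' S ∩ L '' H :=
      Set.image_inter L.injective
    rw [h3] at h2
    exact h2

theorem facetOf_image {E E' : Type*} [AddCommGroup E] [Module ℝ E] [AddCommGroup E']
    [Module ℝ E'] (L : E ≃ₗ[ℝ] E') {S H : Set E} : FacetOf (L '' S) (L '' H) ↔ FacetOf S H := by
  constructor
  · rintro ⟨h1, z, ⟨y, hy, rfl⟩, hz⟩
    have h2 := facetPlane_image L.symm h1
    rw [← Set.image_comp, ← Set.image_comp] at h2
    have h3 : (L.symm : E' → E) ∘ (L : E → E') = id := by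
      funext x; simp
    rw [h3, Set.image_id, Set.image_id] at h2
    exact ⟨h2, y, hy, fun h => hz ⟨y, h, rfl⟩⟩
  · rintro ⟨h1, z, hz, hzH⟩
    refine ⟨facetPlane_image L h1, L z, ⟨z, hz, rfl⟩, ?_⟩
    rintro ⟨y, hy, hyz⟩
    rw [L.injective hyz] at hy
    exact hzH hy

theorem facets_image {E E' : Type*} [AddCommGroup E] [Module ℝ E] [AddCommGroup E']
    [Module ℝ E'] (L : E ≃ₗ[ℝ] E') (S : Set E) :
    Facets (L '' S) = (fun H : Set E => L '' H) '' Facets S := by
  ext H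
  constructor
  · intro hH
    have h1 : H = L '' (L.symm '' H) := by
      rw [← Set.image_comp]
      have h3 : (L : E → E') ∘ (L.symm : E' → E) = id := by
        funext x; simp
      rw [h3, Set.image_id]
    refine ⟨L.symm '' H, ?_, h1.symm⟩
    rw [h1] at hH
    exact (facetOf_image L).1 hH
  · rintro ⟨H, hH, rfl⟩
    exact (facetOf_image L).2 hH

theorem created_image {E E' : Type*} [AddCommGroup E] [Module ℝ E] [AddCommGroup E']
    [Module ℝ E'] (L : E ≃ₗ[ℝ] E') (N : ℕ) (S : ℕ → Set E) :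
    created N (fun t => L '' S t) = created N S := by
  refine Finset.sum_congr rfl fun t _ => ?_
  have hinj : Function.Injective (fun H : Set E => L '' H) := L.injective.image_injective
  rw [facets_image, facets_image, ← Set.image_diff hinj, Set.ncard_image_of_injective _ hinj]

end Pool.Agent.IncHull
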